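import Mathlib

/-!
Definitions used in the statements.
-/

open scoped MatrixGroups ModularForm UpperHalfPlane

namespace Pool.Agent.W_MP_d17ed7_nt

/-- `L` is the entire continuation of the Dirichlet series `∑ a n θ(n) / n ^ s`, where `a n` are
the coefficients of the expansion of `f` at infinity in powers of `exp (2 π i z)`. The series is
required to converge to `L s` for `Re s > k / 2 + 1`. -/
def IsTwistedL (k : ℤ) (f : ℍ → ℂ) {m : ℕ} (θ : DirichletCharacter ℂ m) (L : ℂ → ℂ) : Prop :=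
  Differentiable ℂ L ∧ ∀ s : ℂ, (k : ℝ) / 2 + 1 < s.re →
    HasSum (fun n : ℕ ↦ (UpperHalfPlane.qExpansion 1 f).coeff n * θ n / (n : ℂ) ^ s) (L s)

/-- `f` is an eigenfunction of an Atkin-Lehner matrix for the divisor `Q` of `N`: a matrix
`(Q x, y; N z, Q t)` with integers `x, y, z, t` and determinant `Q`. -/
def IsAtkinLehnerEigen (N : ℕ) (k : ℤ) (f : ℍ → ℂ) (Q : ℕ) : Prop :=
  ∃ (W : GL (Fin 2) ℝ) (w : ℂ) (x y z t : ℤ), w ≠ 0 ∧
    (W : Matrix (Fin 2) (Fin 2) ℝ) = !![(Q * x : ℝ), (y : ℝ); (N * z : ℝ), (Q * t : ℝ)] ∧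
    W.det.val = Q ∧ f ∣[k] W = w • f

end Pool.Agent.W_MP_d17ed7_nt
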