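import Mathlib

/-!
Facts on primitive quadratic Dirichlet characters.
-/

namespace Pool.Agent.W_MP_d17ed7_nt

open DirichletCharacter

lemma inv_eq_of_orderOf_two {m : ℕ} {ψ : DirichletCharacter ℂ m} (h : orderOf ψ = 2) :
    ψ⁻¹ = ψ := by
  have h1 : ψ ^ 2 = 1 := by rw [← h]; exact pow_orderOf_eq_one ψ
  rw [inv_eq_iff_mul_eq_one, ← sq, h1]

lemma mod_four_ne_two {m : ℕ} [NeZero m] {ψ : DirichletCharacter ℂ m} (hψ : ψ.IsPrimitive) :
    m % 4 ≠ 2 := by
  intro h
  obtain ⟨d, hd⟩ : 2 ∣ m := by omega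
  have hd2 : d % 2 = 1 := by omega
  have hdm : d ∣ m := ⟨2, by rw [hd]; ring⟩
  have hf : ψ.FactorsThrough d := by
    rw [factorsThrough_iff_ker_unitsMap hdm]
    intro u hu
    have : u = 1 := by
      rw [MonoidHom.mem_ker, ← Units.val_inj, ZMod.unitsMap_def, Units.coe_map, Units.val_one] at hu
      have h1 : ((u : ZMod m).val : ZMod d) = 1 := by
        have : ZMod.castHom hdm (ZMod d) (u : ZMod m) = (((u : ZMod m).val : ℕ) : ZMod d) := by
          conv_lhs => rw [← ZMod.natCast_zmod_val (u : ZMod m)]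
          simp
        rw [← this]
        exact hu
      have h2 : (d : ℤ) ∣ ((u : ZMod m).val : ℤ) - 1 := by
        rw [← ZMod.intCast_zmod_eq_zero_iff_dvd]
        push_cast
        rw [h1, sub_self]
      have h3 : Nat.Coprime (u : ZMod m).val m := ZMod.val_coe_unit_coprime u
      have h4 : (u : ZMod m).val % 2 = 1 := by
        have h5 : Nat.Coprime (u : ZMod m).val 2 :=
          Nat.Coprime.coprime_dvd_right ⟨d, hd⟩ h3
        rw [Nat.coprime_two_right] at h5
        exact Nat.odd_iff.mp h5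
      have h5 : (m : ℤ) ∣ ((u : ZMod m).val : ℤ) - 1 := by
        have h6 : (2 : ℤ) ∣ ((u : ZMod m).val : ℤ) - 1 := by omega
        have h7 : IsCoprime (2 : ℤ) (d : ℤ) := by
          have : Nat.Coprime 2 d := by
            rw [Nat.coprime_two_left]
            exact Nat.odd_iff.mpr hd2
          exact_mod_cast Nat.isCoprime_iff_coprime.mpr this
        have h8 := h7.mul_dvd h6 h2
        have h9 : (m : ℤ) = 2 * d := by rw [hd]; push_cast; ring
        rw [h9]
        exact h8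
      have h7 : ((((u : ZMod m).val : ℤ) - 1 : ℤ) : ZMod m) = 0 :=
        (ZMod.intCast_zmod_eq_zero_iff_dvd _ _).mpr h5
      push_cast at h7
      rw [ZMod.natCast_zmod_val, sub_eq_zero] at h7
      exact Units.ext h7
    rw [this]
    exact one_mem _
  have h1 : ψ.conductor ≤ d := Nat.sInf_le hf
  rw [(isPrimitive_def ψ).mp hψ] at h1
  omega

/-- The part of the level away from the conductor. -/
lemma level_split {N m : ℕ} (hN0 : N ≠ 0) (hN : ∀ p : ℕ, p.Prime → p ^ 2 ∣ N → p = 2 ∧ ¬ 8 ∣ N)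
    (hm : m % 4 ≠ 2) :
    (N / N.gcd m) ∣ N ∧ Nat.Coprime (N / N.gcd m) (N / (N / N.gcd m)) ∧
      Nat.Coprime (N / N.gcd m) m ∧ N = (N / N.gcd m) * N.gcd m := by
  set g := N.gcd m with hg
  have hgN : g ∣ N := Nat.gcd_dvd_left N m
  have hgm : g ∣ m := Nat.gcd_dvd_right N m
  have hN' : N = (N / g) * g := (Nat.div_mul_cancel hgN).symm
  have hg0 : 0 < g := Nat.gcd_pos_of_pos_left m (Nat.pos_of_ne_zero hN0)
  have hQ0 : 0 < N / g := Nat.div_pos (Nat.le_of_dvd (Nat.pos_of_ne_zero hN0) hgN) hg0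
  have hcop : Nat.Coprime (N / g) m := by
    rw [Nat.coprime_iff_gcd_eq_one] 
    by_contra hne
    obtain ⟨p, hp, hpd⟩ := Nat.exists_prime_and_dvd hne
    have hp1 : p ∣ N / g := hpd.trans (Nat.gcd_dvd_left _ _)
    have hp2 : p ∣ m := hpd.trans (Nat.gcd_dvd_right _ _)
    have hp3 : p ∣ N := hp1.trans (Nat.div_dvd_of_dvd hgN)
    have hp4 : p ∣ g := Nat.dvd_gcd hp3 hp2
    have hp5 : p ^ 2 ∣ N := by
      rw [hN', sq]
      exact mul_dvd_mul hp1 hp4
    obtain ⟨rfl, h8⟩ := hN p hp hp5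
    apply h8
    have h4N : 4 ∣ N := by simpa using hp5
    have h4m : 4 ∣ m := by omega
    have h4g : 4 ∣ g := Nat.dvd_gcd h4N h4m
    rw [hN', show 8 = 2 * 4 by norm_num]
    exact mul_dvd_mul hp1 h4g
  refine ⟨Nat.div_dvd_of_dvd hgN, ?_, hcop, hN'⟩
  have : N / (N / g) = g := by
    conv_lhs => rw [hN']
    rw [Nat.mul_div_cancel _ hg0, Nat.mul_div_cancel_left _ hQ0]
  rw [this]
  exact Nat.Coprime.coprime_dvd_right hgm hcop

variable {q m : ℕ} [NeZero q] [NeZero m] (χ : DirichletCharacter ℂ q) (ψ : DirichletCharacter ℂ m)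

instance neZero_conductor : NeZero (χ.mul ψ).conductor := by
  have : NeZero (Nat.lcm q m) := ⟨Nat.lcm_ne_zero (NeZero.ne q) (NeZero.ne m)⟩
  exact ⟨conductor_ne_zero _⟩

lemma primitive_mul_apply {a : ℤ} (hq : IsCoprime a q) (hm : IsCoprime a m) :
    (primitive_mul χ ψ) a = χ a * ψ a := by
  have hl : IsCoprime a ((Nat.lcm q m : ℕ) : ℤ) := by
    have h1 : IsCoprime a ((q : ℤ) * m) := hq.mul_right hm
    refine h1.of_isCoprime_of_dvd_right ?_
    exact_mod_cast Nat.lcm_dvd_mul q m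
  have h1 : (primitive_mul χ ψ) a = (χ.mul ψ) a := primitiveCharacter_apply_of_isCoprime _ hl
  rw [h1, DirichletCharacter.mul, MulChar.mul_apply, changeLevel_eq_cast_of_dvd' χ _ hl,
    changeLevel_eq_cast_of_dvd' ψ _ hl]

lemma primitive_mul_inv (hχ : χ⁻¹ = χ) (hψ : ψ⁻¹ = ψ) :
    (primitive_mul χ ψ)⁻¹ = primitive_mul χ ψ := by
  have : NeZero (Nat.lcm q m) := ⟨Nat.lcm_ne_zero (NeZero.ne q) (NeZero.ne m)⟩
  have h1 : (χ.mul ψ)⁻¹ = χ.mul ψ := by
    rw [DirichletCharacter.mul, mul_inv, ← map_inv, ← map_inv, hχ, hψ]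
  apply changeLevel_injective (conductor_dvd_level (χ.mul ψ))
  rw [map_inv]
  have h2 : changeLevel (conductor_dvd_level (χ.mul ψ)) (primitive_mul χ ψ) = χ.mul ψ :=
    changeLevel_primitiveCharacter _
  rw [h2, h1]

omit [NeZero q] [NeZero m] in
lemma conductor_dvd_lcm : (χ.mul ψ).conductor ∣ Nat.lcm q m := conductor_dvd_level _

/-- The modulus of `ψ` divides the lcm of the moduli of `χ` and `χψ`. -/
lemma modulus_dvd_lcm (hχ : χ⁻¹ = χ) (hψp : ψ.IsPrimitive) :
    m ∣ Nat.lcm q (χ.mul ψ).conductor := by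
  have hne : NeZero (Nat.lcm q m) := ⟨Nat.lcm_ne_zero (NeZero.ne q) (NeZero.ne m)⟩
  have h2 : changeLevel (conductor_dvd_level (χ.mul ψ)) (primitive_mul χ ψ) =
      changeLevel (Nat.dvd_lcm_left q m) χ * changeLevel (Nat.dvd_lcm_right q m) ψ :=
    changeLevel_primitiveCharacter _
  have h3 : changeLevel (Nat.dvd_lcm_right q m) ψ = changeLevel (Nat.dvd_lcm_left q m) χ *
      changeLevel (conductor_dvd_level (χ.mul ψ)) (primitive_mul χ ψ) := by
    rw [h2, ← mul_assoc]
    have : changeLevel (Nat.dvd_lcm_left q m) χ * changeLevel (Nat.dvd_lcm_left q m) χ = 1 := by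
      rw [← map_mul]
      have : χ * χ = 1 := by
        nth_rewrite 1 [← hχ]
        exact inv_mul_cancel χ
      rw [this, map_one]
    rw [this, one_mul]
  have h4 : (changeLevel (Nat.dvd_lcm_right q m) ψ).conductor = m := by
    rw [conductor_changeLevel]
    exact (isPrimitive_def ψ).mp hψp
  have h5 := conductor_mul_dvd_lcm_conductor (changeLevel (Nat.dvd_lcm_left q m) χ)
    (changeLevel (conductor_dvd_level (χ.mul ψ)) (primitive_mul χ ψ))
  rw [← h3, h4, conductor_changeLevel, conductor_changeLevel] at h5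
  exact h5.trans (lcm_dvd_lcm (conductor_dvd_level χ) (conductor_dvd_level _))

end Pool.Agent.W_MP_d17ed7_nt
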