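import Mathlib

/-!
Twisted functional equation for functions on the upper half plane given by a q-series.
-/

open Complex Filter Asymptotics Set MeasureTheory Topology
open scoped Real

namespace Pool.Agent.W_MP_d17ed7_nt

/-- The exponential `exp (2 π i n z)` at `z = u/m + i t`. -/
lemma qexp_shift {m : ℕ} [NeZero m] (n : ℕ) (u : ZMod m) (t : ℝ) :
    cexp (2 * π * I * n * ((u.val : ℂ) / m + I * t)) =
      ZMod.stdAddChar ((n : ZMod m) * u) * (Real.exp (-(2 * π * n) * t) : ℝ) := by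
  have hm : (m : ℂ) ≠ 0 := Nat.cast_ne_zero.mpr (NeZero.ne m)
  have h1 : ((n : ZMod m) * u) = (((n * u.val : ℕ) : ℤ) : ZMod m) := by
    push_cast
    rw [ZMod.natCast_zmod_val]
  rw [h1, ZMod.stdAddChar_coe, ofReal_exp, ← Complex.exp_add]
  congr 1
  have e1 : 2 * (π : ℂ) * I * n * ((u.val : ℂ) / m + I * t) =
      2 * π * I * (n * (u.val : ℂ)) / m + (I ^ 2) * (2 * π * n * t) := by ring
  rw [e1, I_sq]
  push_cast
  ring

/-- The finite character sum over shifts. -/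
lemma sum_char_stdAddChar {m : ℕ} [NeZero m] {ψ : DirichletCharacter ℂ m}
    (hψ : ψ.IsPrimitive) (hq : ψ⁻¹ = ψ) (n : ℕ) :
    ∑ u : ZMod m, ψ u * ZMod.stdAddChar ((n : ZMod m) * u) =
      ψ n * gaussSum ψ ZMod.stdAddChar := by
  have := gaussSum_mulShift_of_isPrimitive (ZMod.stdAddChar (N := m)) hψ (n : ZMod m)
  rw [hq] at this
  rw [← this]
  simp [gaussSum, AddChar.mulShift_apply]

lemma gaussSum_ne_zero {m : ℕ} [NeZero m] {ψ : DirichletCharacter ℂ m}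
    (hψ : ψ.IsPrimitive) : gaussSum ψ ZMod.stdAddChar ≠ 0 := by
  intro h0
  have h1 : ZMod.dft (fun x : ZMod m ↦ ψ x) = 0 := by
    ext k
    have := hψ.fourierTransform_eq_inv_mul_gaussSum k
    rw [h0, mul_zero] at this
    simpa using this
  have h2 : (fun x : ZMod m ↦ ψ x) = 0 := by
    have := ZMod.dft.injective (a₁ := (fun x : ZMod m ↦ ψ x)) (a₂ := 0) (by simpa using h1)
    exact this
  have h3 := congrFun h2 1
  simp at h3

/-- The twisted sum of shifts, as a function of `t`. -/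
noncomputable def shiftSum {m : ℕ} [NeZero m] (ψ : DirichletCharacter ℂ m) (f : ℂ → ℂ) (t : ℝ) : ℂ :=
  ∑ u : ZMod m, ψ u * f ((u.val : ℂ) / m + I * t)

lemma hasSum_shiftSum {m : ℕ} [NeZero m] {ψ : DirichletCharacter ℂ m}
    (hψ : ψ.IsPrimitive) (hq : ψ⁻¹ = ψ) {a : ℕ → ℂ} {f : ℂ → ℂ}
    (hf : ∀ z : ℂ, 0 < z.im → HasSum (fun n : ℕ ↦ a n * cexp (2 * π * I * n * z)) (f z))
    {t : ℝ} (ht : 0 < t) :
    HasSum (fun n : ℕ ↦ (gaussSum ψ ZMod.stdAddChar * (a n * ψ n)) *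
      (Real.exp (-(2 * π * n) * t) : ℝ)) (shiftSum ψ f t) := by
  have h1 : ∀ u : ZMod m, HasSum (fun n : ℕ ↦ ψ u * (a n *
      (ZMod.stdAddChar ((n : ZMod m) * u) * (Real.exp (-(2 * π * n) * t) : ℝ))))
      (ψ u * f ((u.val : ℂ) / m + I * t)) := by
    intro u
    have him : 0 < ((u.val : ℂ) / m + I * t).im := by
      have : ((u.val : ℂ) / m).im = 0 := by
        rw [← ofReal_natCast, ← ofReal_natCast, ← ofReal_div, ofReal_im]
      rw [add_im, this]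
      simp [ht]
    have := (hf _ him).mul_left (ψ u)
    simpa only [qexp_shift] using this
  have h2 := hasSum_sum (s := (Finset.univ : Finset (ZMod m))) (fun u _ ↦ h1 u)
  convert! h2 using 1
  funext n
  have := sum_char_stdAddChar hψ hq n
  calc gaussSum ψ ZMod.stdAddChar * (a n * ψ n) * (Real.exp (-(2 * π * n) * t) : ℝ)
      = (ψ n * gaussSum ψ ZMod.stdAddChar) * (a n * (Real.exp (-(2 * π * n) * t) : ℝ)) := by ring
    _ = _ := by
      rw [← this, Finset.sum_mul]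
      refine Finset.sum_congr rfl fun u _ ↦ ?_
      ring

lemma shiftSum_continuousOn {m : ℕ} [NeZero m] (ψ : DirichletCharacter ℂ m) {f : ℂ → ℂ}
    (hc : ContinuousOn f {z | 0 < z.im}) : ContinuousOn (shiftSum ψ f) (Ioi 0) := by
  unfold shiftSum
  refine continuousOn_finsetSum _ fun u _ ↦ ?_
  refine continuousOn_const.mul ?_
  refine hc.comp (by fun_prop) ?_
  intro t ht
  have : ((u.val : ℂ) / m).im = 0 := by
    rw [← ofReal_natCast, ← ofReal_natCast, ← ofReal_div, ofReal_im]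
  change 0 < ((u.val : ℂ) / m + I * t).im
  rw [add_im, this]
  simpa using ht

lemma decay_of_hasSum {b : ℕ → ℂ} (hb0 : b 0 = 0) {G : ℝ → ℂ} {c : ℝ} (hc : 0 < c)
    (hG : ∀ x : ℝ, 0 < x → HasSum (fun n : ℕ ↦ b n * (Real.exp (-(c * n) * x) : ℝ)) (G x))
    (r : ℝ) : G =O[atTop] fun x : ℝ ↦ x ^ r := by
  have hs1 : Summable fun n : ℕ ↦ ‖b n * (Real.exp (-(c * n) * 1) : ℝ)‖ := (hG 1 one_pos).summable.norm
  set S := ∑' n : ℕ, ‖b n * (Real.exp (-(c * n) * 1) : ℝ)‖ with hS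
  have hbound : ∀ x : ℝ, 1 ≤ x → ‖G x‖ ≤ (S * Real.exp c) * Real.exp (-c * x) := by
    intro x hx
    have hx0 : 0 < x := by linarith
    rw [← (hG x hx0).tsum_eq]
    have hterm : ∀ n : ℕ, ‖b n * (Real.exp (-(c * n) * x) : ℝ)‖ ≤
        ‖b n * (Real.exp (-(c * n) * 1) : ℝ)‖ * Real.exp (-c * (x - 1)) := by
      intro n
      rcases Nat.eq_zero_or_pos n with rfl | hn
      · simp [hb0]
      · rw [norm_mul, norm_mul, norm_real, norm_real, Real.norm_eq_abs, Real.norm_eq_abs,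
          abs_of_pos (Real.exp_pos _), abs_of_pos (Real.exp_pos _), mul_assoc, ← Real.exp_add]
        refine mul_le_mul_of_nonneg_left (Real.exp_le_exp.mpr ?_) (norm_nonneg _)
        have hn1 : (1 : ℝ) ≤ n := by exact_mod_cast hn
        nlinarith [mul_nonneg (mul_nonneg hc.le (sub_nonneg.mpr hn1)) (sub_nonneg.mpr hx)]
    have hs2 := hs1.mul_right (Real.exp (-c * (x - 1)))
    have hs3 : Summable fun n : ℕ ↦ ‖b n * (Real.exp (-(c * n) * x) : ℝ)‖ :=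
      (hG x hx0).summable.norm
    calc ‖∑' n : ℕ, b n * (Real.exp (-(c * n) * x) : ℝ)‖
        ≤ ∑' n : ℕ, ‖b n * (Real.exp (-(c * n) * x) : ℝ)‖ := norm_tsum_le_tsum_norm hs3
      _ ≤ ∑' n : ℕ, ‖b n * (Real.exp (-(c * n) * 1) : ℝ)‖ * Real.exp (-c * (x - 1)) :=
          hs3.tsum_le_tsum hterm hs2
      _ = S * Real.exp (-c * (x - 1)) := by rw [tsum_mul_right]
      _ = (S * Real.exp c) * Real.exp (-c * x) := by
          rw [mul_assoc, ← Real.exp_add]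
          congr 2
          ring
  have h1 : G =O[atTop] fun x : ℝ ↦ Real.exp (-c * x) := by
    refine IsBigO.of_bound (S * Real.exp c) ?_
    filter_upwards [eventually_ge_atTop 1] with x hx
    rw [Real.norm_eq_abs, abs_of_pos (Real.exp_pos _)]
    exact hbound x hx
  exact h1.trans (isLittleO_exp_neg_mul_rpow_atTop hc r).isBigO

lemma sum_units {m : ℕ} [NeZero m] (ψ : DirichletCharacter ℂ m) (g : ZMod m → ℂ) :
    ∑ u : ZMod m, ψ u * g u = ∑ u : (ZMod m)ˣ, ψ (u : ZMod m) * g (u : ZMod m) := by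
  symm
  refine Finset.sum_of_injOn (fun u : (ZMod m)ˣ ↦ (u : ZMod m)) ?_ ?_ ?_ ?_
  · intro x _ y _ h
    exact Units.ext h
  · intro x _
    simp
  · intro i _ hi
    have : ¬ IsUnit i := by
      intro hu
      apply hi
      exact ⟨hu.unit, by simp, rfl⟩
    rw [ψ.map_nonunit this, zero_mul]
  · intro i _
    rfl

/-- The functional equation of the twisted shift sum. -/
lemma shiftSum_feq {m : ℕ} [NeZero m] {ψ : DirichletCharacter ℂ m} (hq : ψ⁻¹ = ψ)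
    {f : ℂ → ℂ} {Q : ℕ} (hQ : 0 < Q) (hQm : Nat.Coprime Q m) {w : ℂ} {k : ℤ}
    (hfe : ∀ u v : ℤ, (m : ℤ) ∣ Q * u * v + 1 → ∀ t : ℝ, 0 < t →
      f ((u : ℂ) / m + I / (Q * m ^ 2 * t)) =
        w * ((Real.sqrt Q : ℝ) : ℂ) ^ k * (m * I * t) ^ k * f ((v : ℂ) / m + I * t))
    {x : ℝ} (hx : 0 < x) :
    shiftSum ψ f ((1 / x) / (Real.sqrt Q * m)) =
      (w * ψ (-(Q : ZMod m)) * I ^ k * (x : ℂ) ^ k) * shiftSum ψ f (x / (Real.sqrt Q * m)) := by
  have hm0 : (0 : ℝ) < m := Nat.cast_pos.mpr (Nat.pos_of_ne_zero (NeZero.ne m))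
  have hQ0 : (0 : ℝ) < Q := Nat.cast_pos.mpr hQ
  have hs0 : 0 < Real.sqrt Q := Real.sqrt_pos.mpr hQ0
  have hss : Real.sqrt Q * Real.sqrt Q = Q := Real.mul_self_sqrt hQ0.le
  set q : (ZMod m)ˣ := -(ZMod.unitOfCoprime Q hQm) with hqdef
  have hqval : (q : ZMod m) = -(Q : ZMod m) := by
    simp [hqdef]
  unfold shiftSum
  rw [sum_units ψ (fun u ↦ f ((u.val : ℂ) / m + I * ((1 / x / (Real.sqrt Q * m) : ℝ) : ℂ))),
    sum_units ψ (fun u ↦ f ((u.val : ℂ) / m + I * ((x / (Real.sqrt Q * m) : ℝ) : ℂ))),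
    Finset.mul_sum]
  refine Fintype.sum_equiv ((Equiv.inv (ZMod m)ˣ).trans (Equiv.mulLeft q⁻¹)) _ _ fun u ↦ ?_
  set v : (ZMod m)ˣ := ((Equiv.inv (ZMod m)ˣ).trans (Equiv.mulLeft q⁻¹)) u with hv
  have hv' : v = q⁻¹ * u⁻¹ := rfl
  have hdvd : (m : ℤ) ∣ Q * ((u : ZMod m).val : ℤ) * ((v : ZMod m).val : ℤ) + 1 := by
    rw [← ZMod.intCast_zmod_eq_zero_iff_dvd]
    push_cast
    rw [ZMod.natCast_zmod_val, ZMod.natCast_zmod_val]
    have h1 : (Q : ZMod m) = -((q : (ZMod m)ˣ) : ZMod m) := by rw [hqval]; ring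
    rw [h1, hv']
    have h2 : ((q : (ZMod m)ˣ) : ZMod m) * (u : ZMod m) * ((q⁻¹ * u⁻¹ : (ZMod m)ˣ) : ZMod m) = 1 := by
      rw [← Units.val_mul, ← Units.val_mul]
      have : q * u * (q⁻¹ * u⁻¹) = 1 := by
        rw [mul_comm q u]
        group
      rw [this, Units.val_one]
    linear_combination (-1 : ZMod m) * h2
  have ht : 0 < x / (Real.sqrt Q * m) := by positivity
  have key := hfe ((u : ZMod m).val : ℤ) ((v : ZMod m).val : ℤ) hdvd _ ht
  have e1 : I / ((Q : ℂ) * m ^ 2 * ((x / (Real.sqrt Q * m) : ℝ) : ℂ)) =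
      I * ((1 / x / (Real.sqrt Q * m) : ℝ) : ℂ) := by
    rw [div_eq_mul_inv]
    congr 1
    rw [← ofReal_natCast, ← ofReal_natCast, ← ofReal_pow, ← ofReal_mul, ← ofReal_mul, ← ofReal_inv]
    congr 1
    field_simp
    rw [Real.sq_sqrt hQ0.le]
  have e2 : ((Real.sqrt Q : ℝ) : ℂ) ^ k * (m * I * ((x / (Real.sqrt Q * m) : ℝ) : ℂ)) ^ k =
      I ^ k * (x : ℂ) ^ k := by
    rw [← mul_zpow, ← mul_zpow]
    congr 1
    have : ((Real.sqrt Q : ℝ) : ℂ) ≠ 0 := ofReal_ne_zero.mpr hs0.ne'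
    have hm' : (m : ℂ) ≠ 0 := Nat.cast_ne_zero.mpr (NeZero.ne m)
    push_cast
    field_simp
  rw [e1] at key
  have key2 : f ((((u : ZMod m).val : ℕ) : ℂ) / m + I * ((1 / x / (Real.sqrt Q * m) : ℝ) : ℂ)) =
      w * (I ^ k * (x : ℂ) ^ k) *
        f ((((v : ZMod m).val : ℕ) : ℂ) / m + I * ((x / (Real.sqrt Q * m) : ℝ) : ℂ)) := by
    have := key
    push_cast at this ⊢
    rw [this]
    have e3 := e2
    push_cast at e3
    rw [mul_assoc w, e3]
  rw [key2]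
  have hψ : ψ (u : ZMod m) = ψ (-(Q : ZMod m)) * ψ (v : ZMod m) := by
    have hinv : ∀ y : (ZMod m)ˣ, ψ ((y⁻¹ : (ZMod m)ˣ) : ZMod m) = ψ (y : ZMod m) := by
      intro y
      have h := congrArg (fun c : DirichletCharacter ℂ m ↦ c (y : ZMod m)) hq
      simp only [MulChar.inv_apply] at h
      rw [← h, Ring.inverse_unit]
    rw [← hqval, ← map_mul, ← Units.val_mul, hv', mul_inv_cancel_left, hinv]
  rw [hψ]
  ring

lemma hasSum_scaled {m : ℕ} [NeZero m] {ψ : DirichletCharacter ℂ m}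
    (hψ : ψ.IsPrimitive) (hq : ψ⁻¹ = ψ) {a : ℕ → ℂ} {f : ℂ → ℂ}
    (hf : ∀ z : ℂ, 0 < z.im → HasSum (fun n : ℕ ↦ a n * cexp (2 * π * I * n * z)) (f z))
    {Q : ℕ} (hQ : 0 < Q) {x : ℝ} (hx : 0 < x) :
    HasSum (fun n : ℕ ↦ (gaussSum ψ ZMod.stdAddChar * (a n * ψ n)) *
      (Real.exp (-(2 * π / (Real.sqrt Q * m) * n) * x) : ℝ))
      (shiftSum ψ f (x / (Real.sqrt Q * m))) := by
  have hm0 : (0 : ℝ) < m := Nat.cast_pos.mpr (Nat.pos_of_ne_zero (NeZero.ne m))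
  have hs0 : 0 < Real.sqrt Q := Real.sqrt_pos.mpr (Nat.cast_pos.mpr hQ)
  have := hasSum_shiftSum hψ hq hf (t := x / (Real.sqrt Q * m)) (by positivity)
  have e : ∀ n : ℕ, -(2 * π / (Real.sqrt Q * m) * n) * x = -(2 * π * n) * (x / (Real.sqrt Q * m)) := by
    intro n
    ring
  simpa only [e] using this

lemma summable_twist {a b : ℕ → ℂ} {κ σ c : ℝ} (hc : 0 < c)
    (ha : a =O[atTop] fun n : ℕ ↦ (n : ℝ) ^ κ) (hb : ∀ n, ‖b n‖ ≤ 1) (τ : ℂ) (hσ : κ + 1 < σ) :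
    Summable fun n : ℕ ↦ ‖τ * (a n * b n)‖ / (c * n) ^ σ := by
  refine summable_of_isBigO_nat (Real.summable_nat_rpow.mpr <| show κ - σ < -1 by linarith) ?_
  obtain ⟨C, hC⟩ := ha.bound
  refine IsBigO.of_bound (‖τ‖ * C / c ^ σ) ?_
  filter_upwards [hC, eventually_ge_atTop 1] with n hn hn1
  have hn0 : (0 : ℝ) < n := Nat.cast_pos.mpr hn1
  have hnκ : 0 < (n : ℝ) ^ κ := Real.rpow_pos_of_pos hn0 _
  have hnσ : 0 < (n : ℝ) ^ σ := Real.rpow_pos_of_pos hn0 _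
  have hcσ : 0 < c ^ σ := Real.rpow_pos_of_pos hc _
  rw [Real.norm_eq_abs, abs_of_pos hnκ] at hn
  rw [Real.mul_rpow hc.le hn0.le, Real.norm_eq_abs, Real.norm_eq_abs,
    abs_of_pos (Real.rpow_pos_of_pos hn0 _), abs_of_nonneg (by positivity),
    Real.rpow_sub hn0, norm_mul, norm_mul, div_mul_div_comm, div_le_div_iff_of_pos_right (by positivity)]
  calc ‖τ‖ * (‖a n‖ * ‖b n‖) ≤ ‖τ‖ * ((C * (n : ℝ) ^ κ) * 1) := by
        refine mul_le_mul_of_nonneg_left ?_ (norm_nonneg _)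
        exact mul_le_mul hn (hb n) (norm_nonneg _) ((norm_nonneg _).trans hn)
    _ = ‖τ‖ * C * (n : ℝ) ^ κ := by ring

/-- The FE-pair attached to the twisted shift sum. -/
noncomputable def twistPair {m : ℕ} [NeZero m] {ψ : DirichletCharacter ℂ m} (hψ : ψ.IsPrimitive)
    (hq : ψ⁻¹ = ψ) {a : ℕ → ℂ} {f : ℂ → ℂ} {k : ℤ} (hk : 0 < k) (ha0 : a 0 = 0)
    (hf : ∀ z : ℂ, 0 < z.im → HasSum (fun n : ℕ ↦ a n * cexp (2 * π * I * n * z)) (f z))
    (hc : ContinuousOn f {z | 0 < z.im})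
    {Q : ℕ} (hQ : 0 < Q) (hQm : Nat.Coprime Q m) {w : ℂ} (hw : w ≠ 0)
    (hfe : ∀ u v : ℤ, (m : ℤ) ∣ Q * u * v + 1 → ∀ t : ℝ, 0 < t →
      f ((u : ℂ) / m + I / (Q * m ^ 2 * t)) =
        w * ((Real.sqrt Q : ℝ) : ℂ) ^ k * (m * I * t) ^ k * f ((v : ℂ) / m + I * t)) :
    WeakFEPair ℂ where
  f x := shiftSum ψ f (x / (Real.sqrt Q * m))
  g x := shiftSum ψ f (x / (Real.sqrt Q * m))
  k := k
  ε := w * ψ (-(Q : ZMod m)) * I ^ k
  f₀ := 0
  g₀ := 0
  hf_int := by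
    refine ContinuousOn.locallyIntegrableOn ?_ measurableSet_Ioi
    refine (shiftSum_continuousOn ψ hc).comp (by fun_prop) ?_
    intro x (hx : 0 < x)
    have hm0 : (0 : ℝ) < m := Nat.cast_pos.mpr (Nat.pos_of_ne_zero (NeZero.ne m))
    have hs0 : 0 < Real.sqrt Q := Real.sqrt_pos.mpr (Nat.cast_pos.mpr hQ)
    change 0 < x / (Real.sqrt Q * m)
    positivity
  hg_int := by
    refine ContinuousOn.locallyIntegrableOn ?_ measurableSet_Ioi
    refine (shiftSum_continuousOn ψ hc).comp (by fun_prop) ?_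
    intro x (hx : 0 < x)
    have hm0 : (0 : ℝ) < m := Nat.cast_pos.mpr (Nat.pos_of_ne_zero (NeZero.ne m))
    have hs0 : 0 < Real.sqrt Q := Real.sqrt_pos.mpr (Nat.cast_pos.mpr hQ)
    change 0 < x / (Real.sqrt Q * m)
    positivity
  hk := mod_cast hk
  hε := by
    have h1 : IsUnit (-(Q : ZMod m)) := ((ZMod.isUnit_iff_coprime Q m).mpr hQm).neg
    have h2 : ψ (-(Q : ZMod m)) ≠ 0 := by
      have := h1.map ψ
      exact this.ne_zero
    exact mul_ne_zero (mul_ne_zero hw h2) (zpow_ne_zero _ I_ne_zero)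
  h_feq := by
    intro x (hx : 0 < x)
    rw [shiftSum_feq hq hQ hQm hfe hx, smul_eq_mul, Real.rpow_intCast]
    push_cast
    ring
  hf_top r := by
    have hm0 : (0 : ℝ) < m := Nat.cast_pos.mpr (Nat.pos_of_ne_zero (NeZero.ne m))
    have hs0 : 0 < Real.sqrt Q := Real.sqrt_pos.mpr (Nat.cast_pos.mpr hQ)
    simp only [sub_zero]
    refine decay_of_hasSum (b := fun n ↦ gaussSum ψ ZMod.stdAddChar * (a n * ψ n))
      (c := 2 * π / (Real.sqrt Q * m)) (by simp [ha0]) (by positivity) ?_ r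
    intro x hx
    exact hasSum_scaled hψ hq hf hQ hx
  hg_top r := by
    have hm0 : (0 : ℝ) < m := Nat.cast_pos.mpr (Nat.pos_of_ne_zero (NeZero.ne m))
    have hs0 : 0 < Real.sqrt Q := Real.sqrt_pos.mpr (Nat.cast_pos.mpr hQ)
    simp only [sub_zero]
    refine decay_of_hasSum (b := fun n ↦ gaussSum ψ ZMod.stdAddChar * (a n * ψ n))
      (c := 2 * π / (Real.sqrt Q * m)) (by simp [ha0]) (by positivity) ?_ r
    intro x hx
    exact hasSum_scaled hψ hq hf hQ hx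

/-- Core theorem: continuation of the twisted L-function, and its vanishing at the centre when
the sign of the functional equation is not `1`. -/
theorem core {m : ℕ} [NeZero m] {ψ : DirichletCharacter ℂ m} (hψ : ψ.IsPrimitive)
    (hq : ψ⁻¹ = ψ) {a : ℕ → ℂ} {f : ℂ → ℂ} {k : ℤ} (hk : 0 < k) (ha0 : a 0 = 0)
    (ha : a =O[atTop] fun n : ℕ ↦ (n : ℝ) ^ ((k : ℝ) / 2))
    (hf : ∀ z : ℂ, 0 < z.im → HasSum (fun n : ℕ ↦ a n * cexp (2 * π * I * n * z)) (f z))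
    (hc : ContinuousOn f {z | 0 < z.im})
    {Q : ℕ} (hQ : 0 < Q) (hQm : Nat.Coprime Q m) {w : ℂ} (hw : w ≠ 0)
    (hfe : ∀ u v : ℤ, (m : ℤ) ∣ Q * u * v + 1 → ∀ t : ℝ, 0 < t →
      f ((u : ℂ) / m + I / (Q * m ^ 2 * t)) =
        w * ((Real.sqrt Q : ℝ) : ℂ) ^ k * (m * I * t) ^ k * f ((v : ℂ) / m + I * t)) :
    ∃ L : ℂ → ℂ, Differentiable ℂ L ∧
      (∀ s : ℂ, (k : ℝ) / 2 + 1 < s.re → HasSum (fun n : ℕ ↦ a n * ψ n / (n : ℂ) ^ s) (L s)) ∧
      (w * ψ (-(Q : ZMod m)) * I ^ k ≠ 1 → L ((k : ℂ) / 2) = 0) := by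
  have hm0 : (0 : ℝ) < m := Nat.cast_pos.mpr (Nat.pos_of_ne_zero (NeZero.ne m))
  have hs0 : 0 < Real.sqrt Q := Real.sqrt_pos.mpr (Nat.cast_pos.mpr hQ)
  set P := twistPair hψ hq hk ha0 hf hc hQ hQm hw hfe with hP
  have hPs : IsStrongFEPair P := ⟨rfl, rfl⟩
  set c : ℝ := 2 * π / (Real.sqrt Q * m) with hcdef
  have hc0 : 0 < c := by positivity
  set τ : ℂ := gaussSum ψ ZMod.stdAddChar with hτ
  have hτ0 : τ ≠ 0 := gaussSum_ne_zero hψ
  have hk0 : (0 : ℝ) < k := by exact_mod_cast hk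
  refine ⟨fun s ↦ P.Λ s * ((c : ℂ) ^ s * τ⁻¹ * (Complex.Gamma s)⁻¹), ?_, ?_, ?_⟩
  · have h1 := hPs.differentiable_Λ
    have h2 : Differentiable ℂ fun s : ℂ ↦ (c : ℂ) ^ s := by
      intro s
      exact (differentiableAt_id).const_cpow (Or.inl (ofReal_ne_zero.mpr hc0.ne'))
    have h3 := differentiable_one_div_Gamma
    exact h1.mul ((h2.mul_const _).mul h3)
  · intro s hs
    have hs1 : 0 < s.re := by linarith
    have hsum : Summable fun n : ℕ ↦ ‖τ * (a n * ψ n)‖ / (c * n) ^ s.re := by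
      exact summable_twist hc0 ha (fun n ↦ ψ.norm_le_one _) τ hs
    have hmel := hasSum_mellin (a := fun n : ℕ ↦ τ * (a n * ψ n)) (p := fun n : ℕ ↦ c * n)
      (F := P.f) (s := s) (fun n ↦ by
        rcases Nat.eq_zero_or_pos n with rfl | hn
        · left; simp [ha0]
        · right
          have : (0 : ℝ) < n := Nat.cast_pos.mpr hn
          positivity) hs1 (fun x (hx : 0 < x) ↦ by
        have := hasSum_scaled hψ hq hf hQ hx
        exact this) hsum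
    rw [← hPs.Λ_eq] at hmel
    have h4 := hmel.mul_right ((c : ℂ) ^ s * τ⁻¹ * (Complex.Gamma s)⁻¹)
    convert! h4 using 1
    funext n
    have hG : Complex.Gamma s ≠ 0 := Complex.Gamma_ne_zero_of_re_pos hs1
    have hcs : (c : ℂ) ^ s ≠ 0 := by
      rw [Ne, cpow_eq_zero_iff, not_and_or]
      exact Or.inl (ofReal_ne_zero.mpr hc0.ne')
    rcases Nat.eq_zero_or_pos n with rfl | hn
    · simp [ha0]
    · have hn0 : (0 : ℝ) < n := Nat.cast_pos.mpr hn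
      have hns : ((n : ℝ) : ℂ) ^ s ≠ 0 := by
        rw [Ne, cpow_eq_zero_iff, not_and_or]
        exact Or.inl (ofReal_ne_zero.mpr hn0.ne')
      have hcn : (((c * n : ℝ)) : ℂ) ^ s = (c : ℂ) ^ s * ((n : ℝ) : ℂ) ^ s := by
        rw [ofReal_mul, mul_cpow_ofReal_nonneg hc0.le hn0.le]
      rw [hcn]
      simp only [ofReal_natCast] at hns ⊢
      field_simp
  · intro hε
    have h1 := P.functional_equation ((k : ℂ) / 2)
    rw [hPs.symm_Λ_eq, hPs.Λ_eq] at h1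
    have h2 : P.g = P.f := rfl
    have h3 : ((P.k : ℝ) : ℂ) = (k : ℂ) := by
      simp [hP, twistPair]
    have h4 : P.ε = w * ψ (-(Q : ZMod m)) * I ^ k := rfl
    rw [h2, h3, h4, smul_eq_mul, show (k : ℂ) - k / 2 = k / 2 by ring] at h1
    have h5 : mellin P.f ((k : ℂ) / 2) = 0 := by
      by_contra hne
      apply hε
      have := mul_right_cancel₀ hne ((one_mul _).trans h1)
      exact this.symm
    simp only
    rw [hPs.Λ_eq, h5, zero_mul]

end Pool.Agent.W_MP_d17ed7_nt
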