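import Mathlib
import Pool.Agent.W_MP_d17ed7_nt.Core

/-!
From slash-invariance under a matrix to the transformation used in the core theorem.
-/

open Complex Filter Asymptotics Set MeasureTheory Topology
open scoped Real MatrixGroups ModularForm

namespace Pool.Agent.W_MP_d17ed7_nt

open UpperHalfPlane hiding I

lemma feq_of_slash {k : ℤ} {f : ℍ → ℂ} {Q m : ℕ} (hQ : 0 < Q) (hm : 0 < m) {w : ℂ}
    {u v B : ℤ} (hB : (Q : ℤ) * u * v + 1 = - (B * m)) {M : GL (Fin 2) ℝ}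
    (hM : (M : Matrix (Fin 2) (Fin 2) ℝ) = !![(Q * u : ℝ), (B : ℝ); (Q * m : ℝ), (-(Q * v) : ℝ)])
    (hf : f ∣[k] M = w • f) {t : ℝ} (ht : 0 < t) :
    f (ofComplex ((u : ℂ) / m + I / (Q * m ^ 2 * t))) =
      (w * Q * ((Real.sqrt Q : ℝ) : ℂ) ^ (-k)) * ((Real.sqrt Q : ℝ) : ℂ) ^ k * (m * I * t) ^ k *
        f (ofComplex ((v : ℂ) / m + I * t)) := by
  have hQ0 : (0 : ℝ) < Q := Nat.cast_pos.mpr hQ
  have hm0 : (0 : ℝ) < m := Nat.cast_pos.mpr hm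
  have hQc : (Q : ℂ) ≠ 0 := Nat.cast_ne_zero.mpr hQ.ne'
  have hmc : (m : ℂ) ≠ 0 := Nat.cast_ne_zero.mpr hm.ne'
  have htc : (t : ℂ) ≠ 0 := ofReal_ne_zero.mpr ht.ne'
  have hs0 : ((Real.sqrt Q : ℝ) : ℂ) ≠ 0 := ofReal_ne_zero.mpr (Real.sqrt_pos.mpr hQ0).ne'
  have hBr : (Q : ℝ) * u * v + 1 = -(B * m) := by exact_mod_cast hB
  have hBc : (Q : ℂ) * u * v + 1 = -(B * m) := by exact_mod_cast hB
  have hdet : M.det.val = Q := by
    rw [Matrix.GeneralLinearGroup.val_det_apply, hM, Matrix.det_fin_two_of]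
    linear_combination (-(Q : ℝ)) * hBr
  have him1 : 0 < ((v : ℂ) / m + I * t).im := by
    have : ((v : ℂ) / m).im = 0 := by
      rw [← ofReal_natCast, ← ofReal_intCast, ← ofReal_div, ofReal_im]
    rw [add_im, this]
    simp [ht]
  set z₁ : ℍ := ⟨(v : ℂ) / m + I * t, him1⟩ with hz₁
  have hcoe : (z₁ : ℂ) = (v : ℂ) / m + I * t := rfl
  have hden : denom M z₁ = Q * m * I * t := by
    rw [denom, hM, hcoe]
    simp
    field_simp
    ring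
  have hnum : num M z₁ = (Q * u : ℂ) * z₁ + B := by
    rw [num, hM]
    simp
  have hval : ((M • z₁ : ℍ) : ℂ) = (u : ℂ) / m + I / (Q * m ^ 2 * t) := by
    rw [coe_smul_of_det_pos (by rw [hdet]; exact hQ0), hden, hnum, hcoe]
    have hBe : (B : ℂ) = -((Q : ℂ) * u * v + 1) / m := by
      rw [hBc]; field_simp
    rw [hBe]
    field_simp
    linear_combination (-1 : ℂ) * I_sq
  have h1 := congrFun hf z₁
  rw [ModularForm.slash_apply] at h1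
  have hσ : σ M = ContinuousAlgEquiv.refl ℝ ℂ := by
    rw [σ, if_pos (by rw [hdet]; exact hQ0)]
  rw [hσ, hdet, abs_of_pos hQ0, hden] at h1
  simp only [Pi.smul_apply, smul_eq_mul] at h1
  have e1 : ofComplex ((u : ℂ) / m + I / (Q * m ^ 2 * t)) = M • z₁ := by
    rw [← hval, ofComplex_apply]
  have e2 : ofComplex ((v : ℂ) / m + I * t) = z₁ := by
    rw [← hcoe, ofComplex_apply]
  rw [e1, e2]
  have h2 : f (M • z₁) * ((Q : ℂ) ^ (k - 1) * ((Q : ℂ) * m * I * t) ^ (-k)) = w * f z₁ := by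
    have : f (M • z₁) * (((Q : ℝ) : ℂ) ^ (k - 1)) * ((Q : ℂ) * m * I * t) ^ (-k) = w * f z₁ := h1
    rw [ofReal_natCast] at this
    rw [← this]
    ring
  have hI : (I : ℂ) ≠ 0 := I_ne_zero
  have h3 : ((Q : ℂ) ^ (k - 1) * ((Q : ℂ) * m * I * t) ^ (-k)) ≠ 0 :=
    mul_ne_zero (zpow_ne_zero _ hQc)
      (zpow_ne_zero _ (mul_ne_zero (mul_ne_zero (mul_ne_zero hQc hmc) hI) htc))
  have h4 : f (M • z₁) = w * f z₁ / ((Q : ℂ) ^ (k - 1) * ((Q : ℂ) * m * I * t) ^ (-k)) := by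
    rw [eq_div_iff h3, h2]
  rw [h4, zpow_sub₀ hQc, zpow_one, zpow_neg, zpow_neg,
    show (Q : ℂ) * m * I * t = Q * (m * I * t) by ring, mul_zpow (Q : ℂ)]
  have hQk : (Q : ℂ) ^ k ≠ 0 := zpow_ne_zero _ hQc
  have hsk : ((Real.sqrt Q : ℝ) : ℂ) ^ k ≠ 0 := zpow_ne_zero _ hs0
  have hmk : ((m : ℂ) * I * t) ^ k ≠ 0 := zpow_ne_zero _ (mul_ne_zero (mul_ne_zero hmc hI) htc)
  field_simp

end Pool.Agent.W_MP_d17ed7_nt
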