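import Mathlib
import Pool.Agent.W_MP_d17ed7_nt.Defs
import Pool.Agent.W_MP_d17ed7_nt.Slash
import Pool.Agent.W_MP_d17ed7_nt.Chars

/-!
Quadratic twists of Atkin-Lehner eigenforms.
-/

open Complex Filter Asymptotics Set MeasureTheory Topology
open scoped Real MatrixGroups ModularForm

namespace Pool.Agent.W_MP_d17ed7_nt

open UpperHalfPlane hiding I

lemma IsTwistedL.unique {k : ℤ} {f : ℍ → ℂ} {m : ℕ} {θ : DirichletCharacter ℂ m} {L₁ L₂ : ℂ → ℂ}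
    (h₁ : IsTwistedL k f θ L₁) (h₂ : IsTwistedL k f θ L₂) : L₁ = L₂ := by
  have ha₁ : AnalyticOnNhd ℂ L₁ univ := fun z _ ↦ h₁.1.analyticAt z
  have ha₂ : AnalyticOnNhd ℂ L₂ univ := fun z _ ↦ h₂.1.analyticAt z
  refine ha₁.eq_of_eventuallyEq ha₂ (z₀ := (((k : ℝ) / 2 + 2 : ℝ) : ℂ)) ?_
  have hopen : IsOpen {s : ℂ | (k : ℝ) / 2 + 1 < s.re} := isOpen_lt continuous_const continuous_re
  have hmem : (((k : ℝ) / 2 + 2 : ℝ) : ℂ) ∈ {s : ℂ | (k : ℝ) / 2 + 1 < s.re} := by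
    simp only [mem_ofPred_eq, ofReal_re]
    linarith
  filter_upwards [hopen.mem_nhds hmem] with s hs
  exact (h₁.2 s hs).unique (h₂.2 s hs)

lemma slash_of_atkinLehner {N : ℕ} {k : ℤ} {f : ℍ → ℂ}
    (hf : ∀ γ : SL(2, ℤ), γ ∈ CongruenceSubgroup.Gamma0 N → f ∣[k] (γ : GL (Fin 2) ℝ) = f)
    {Q m N' : ℕ} (hQ : 0 < Q) (hN : N = Q * N') (hNm : N' ∣ m)
    {W : GL (Fin 2) ℝ} {w : ℂ} {x y z t : ℤ}
    (hW : (W : Matrix (Fin 2) (Fin 2) ℝ) = !![(Q * x : ℝ), (y : ℝ); (N * z : ℝ), (Q * t : ℝ)])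
    (hdet : W.det.val = Q) (hfW : f ∣[k] W = w • f)
    {u v B : ℤ} (hB : (Q : ℤ) * u * v + 1 = - (B * m)) :
    ∃ M : GL (Fin 2) ℝ, (M : Matrix (Fin 2) (Fin 2) ℝ) =
      !![(Q * u : ℝ), (B : ℝ); (Q * m : ℝ), (-(Q * v) : ℝ)] ∧ f ∣[k] M = w • f := by
  have hQ0 : (Q : ℤ) ≠ 0 := by exact_mod_cast hQ.ne'
  have hd1 : (Q : ℝ) * x * (Q * t) - y * (N * z) = Q := by
    have := hdet
    rw [Matrix.GeneralLinearGroup.val_det_apply, hW, Matrix.det_fin_two_of] at this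
    exact this
  have hd2 : (Q : ℤ) * x * (Q * t) - y * (N * z) = Q := by exact_mod_cast hd1
  have hd3 : (Q : ℤ) * x * t - y * (N' * z) = 1 := by
    apply mul_left_cancel₀ hQ0
    rw [hN] at hd2
    push_cast at hd2
    linear_combination hd2
  set A : Matrix (Fin 2) (Fin 2) ℤ := !![Q * u * t - B * N' * z, -(u * y) + B * x;
    Q * m * t + v * (Q * N') * z, -(m * y) - Q * v * x] with hA
  have hAdet : A.det = 1 := by
    rw [hA, Matrix.det_fin_two_of]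
    linear_combination (-(Q : ℤ) * u * v - B * m) * hd3 - hB
  set γ : SL(2, ℤ) := ⟨A, hAdet⟩ with hγ
  have hγmem : γ ∈ CongruenceSubgroup.Gamma0 N := by
    rw [CongruenceSubgroup.Gamma0_mem]
    have : (γ : Matrix (Fin 2) (Fin 2) ℤ) 1 0 = Q * m * t + v * (Q * N') * z := by
      simp [hγ, hA]
    change (((γ : Matrix (Fin 2) (Fin 2) ℤ) 1 0 : ℤ) : ZMod N) = 0
    rw [this, ZMod.intCast_zmod_eq_zero_iff_dvd, hN]
    push_cast
    obtain ⟨c, hc⟩ := hNm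
    refine ⟨c * t + v * z, ?_⟩
    rw [hc]
    push_cast
    ring
  refine ⟨(γ : GL (Fin 2) ℝ) * W, ?_, ?_⟩
  · have hd1' : (Q : ℝ) * x * t - y * (N' * z) = 1 := by exact_mod_cast hd3
    have hNr : (N : ℝ) = Q * N' := by rw [hN]; push_cast; ring
    rw [Matrix.GeneralLinearGroup.coe_mul, hW]
    have hγr : ((γ : GL (Fin 2) ℝ) : Matrix (Fin 2) (Fin 2) ℝ) =
        !![(Q * u * t - B * N' * z : ℝ), (-(u * y) + B * x : ℝ);
          (Q * m * t + v * (Q * N') * z : ℝ), (-(m * y) - Q * v * x : ℝ)] := by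
      ext i j
      change ((A i j : ℤ) : ℝ) = _
      fin_cases i <;> fin_cases j <;> simp [hA]
    rw [hγr, Matrix.mul_fin_two, hNr]
    have e1 : ∀ a b c d a' b' c' d' : ℝ, a = a' → b = b' → c = c' → d = d' →
        (!![a, b; c, d] : Matrix (Fin 2) (Fin 2) ℝ) = !![a', b'; c', d'] := by
      rintro a b c d a' b' c' d' rfl rfl rfl rfl
      rfl
    apply e1
    · linear_combination (Q : ℝ) * u * hd1'
    · linear_combination (B : ℝ) * hd1'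
    · linear_combination (Q : ℝ) * m * hd1'
    · linear_combination (-(Q : ℝ) * v) * hd1'
  · rw [SlashAction.slash_mul, hf γ hγmem, hfW]

/-- The analytic facts on a cusp form which are used. -/
structure CuspData (k : ℤ) (f : ℍ → ℂ) : Prop where
  hasSum : ∀ z : ℂ, 0 < z.im →
    HasSum (fun n : ℕ ↦ (qExpansion 1 f).coeff n * cexp (2 * π * I * n * z)) (f (ofComplex z))
  zero : (qExpansion 1 f).coeff 0 = 0
  bound : (fun n : ℕ ↦ (qExpansion 1 f).coeff n) =O[atTop] fun n : ℕ ↦ (n : ℝ) ^ ((k : ℝ) / 2)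
  cont : ContinuousOn (fun z : ℂ ↦ f (ofComplex z)) {z | 0 < z.im}

lemma CuspData.of_cuspForm {Γ : Subgroup (GL (Fin 2) ℝ)} [Γ.IsArithmetic] {k : ℤ}
    (h1 : Γ.strictWidthInfty = 1) (f : CuspForm Γ k) : CuspData k f := by
  have hΓ : (1 : ℝ) ∈ Γ.strictPeriods := by
    rw [← h1]
    exact Γ.strictWidthInfty_mem_strictPeriods
  refine ⟨?_, ?_, ?_, ?_⟩
  · intro z hz
    have := ModularForm.hasSum_qExpansion f one_pos hΓ (ofComplex z)
    convert! this using 2 with n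
    rw [ofComplex_apply_of_im_pos hz, Function.Periodic.qParam, ← exp_nat_mul]
    congr 2
    push_cast
    ring
  · have h2 := UpperHalfPlane.qExpansion_coeff_zero (f := f) one_pos
      (ModularFormClass.analyticAt_cuspFunction_zero f one_pos hΓ)
      (SlashInvariantFormClass.periodic_comp_ofComplex f hΓ)
    rw [h2]
    exact (CuspFormClass.zero_at_infty f).valueAtInfty_eq_zero
  · have := CuspFormClass.qExpansion_isBigO f
    rwa [h1] at this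
  · have h3 := (UpperHalfPlane.mdifferentiable_iff.mp (ModularFormClass.holo f)).continuousOn
    exact h3

lemma twist_eigen {N : ℕ} {k : ℤ} (hk : 0 < k) {f : ℍ → ℂ} (hd : CuspData k f)
    (hf : ∀ γ : SL(2, ℤ), γ ∈ CongruenceSubgroup.Gamma0 N → f ∣[k] (γ : GL (Fin 2) ℝ) = f)
    {Q N' : ℕ} (hQ : 0 < Q) (hN : N = Q * N')
    {W : GL (Fin 2) ℝ} {w : ℂ} (hw : w ≠ 0) {x y z t : ℤ}
    (hW : (W : Matrix (Fin 2) (Fin 2) ℝ) = !![(Q * x : ℝ), (y : ℝ); (N * z : ℝ), (Q * t : ℝ)])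
    (hdet : W.det.val = Q) (hfW : f ∣[k] W = w • f)
    {m : ℕ} [NeZero m] (hNm : N' ∣ m) (hQm : Nat.Coprime Q m)
    {θ : DirichletCharacter ℂ m} (hθ : θ.IsPrimitive) (hθ' : θ⁻¹ = θ) :
    ∃ L : ℂ → ℂ, IsTwistedL k f θ L ∧
      ((w * Q * ((Real.sqrt Q : ℝ) : ℂ) ^ (-k)) * θ (-(Q : ZMod m)) * I ^ k ≠ 1 →
        L ((k : ℂ) / 2) = 0) := by
  have hm : 0 < m := Nat.pos_of_ne_zero (NeZero.ne m)
  have hQ0 : (0 : ℝ) < Q := Nat.cast_pos.mpr hQ
  have hs0 : ((Real.sqrt Q : ℝ) : ℂ) ≠ 0 := ofReal_ne_zero.mpr (Real.sqrt_pos.mpr hQ0).ne'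
  have hw' : w * Q * ((Real.sqrt Q : ℝ) : ℂ) ^ (-k) ≠ 0 :=
    mul_ne_zero (mul_ne_zero hw (Nat.cast_ne_zero.mpr hQ.ne')) (zpow_ne_zero _ hs0)
  obtain ⟨L, hL1, hL2, hL3⟩ := core (f := fun z : ℂ ↦ f (ofComplex z)) hθ hθ' hk hd.zero hd.bound
    hd.hasSum hd.cont hQ hQm hw' (by
      intro u v huv t' ht'
      obtain ⟨B, hB⟩ := huv
      have hB' : (Q : ℤ) * u * v + 1 = -(-B * m) := by rw [hB]; ring
      obtain ⟨M, hM, hfM⟩ := slash_of_atkinLehner hf hQ hN hNm hW hdet hfW hB'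
      exact feq_of_slash hQ hm hB' hM hfM ht')
  exact ⟨L, ⟨hL1, hL2⟩, hL3⟩

/-- The general theorem: the product of the two central values vanishes for every twist. -/
theorem product_vanishes {N : ℕ} (hN0 : N ≠ 0)
    (hN : ∀ p : ℕ, p.Prime → p ^ 2 ∣ N → p = 2 ∧ ¬ 8 ∣ N) {k : ℤ} (hk : 0 < k)
    {f : ℍ → ℂ} (hd : CuspData k f)
    (hf : ∀ γ : SL(2, ℤ), γ ∈ CongruenceSubgroup.Gamma0 N → f ∣[k] (γ : GL (Fin 2) ℝ) = f)
    (hAL' : ∀ Q : ℕ, Q ∣ N → Nat.Coprime Q (N / Q) → Q ≠ 1 → IsAtkinLehnerEigen N k f Q)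
    {q : ℕ} [NeZero q] {χ : DirichletCharacter ℂ q} (hχ : orderOf χ = 2)
    (hχodd : χ (-1) = -1) (hχN : ∀ p : ℕ, p.Prime → p ∣ N → χ p = 1)
    {m : ℕ} [NeZero m] {ψ : DirichletCharacter ℂ m} (hψp : ψ.IsPrimitive) (hψ : orderOf ψ = 2) :
    (∃! L, IsTwistedL k f ψ L) ∧ (∃! L, IsTwistedL k f (χ.primitive_mul ψ) L) ∧
    ∀ L₁ L₂, IsTwistedL k f ψ L₁ → IsTwistedL k f (χ.primitive_mul ψ) L₂ →
      L₁ ((k : ℂ) / 2) * L₂ ((k : ℂ) / 2) = 0 := by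
  have hAL : ∀ Q : ℕ, Q ∣ N → Nat.Coprime Q (N / Q) → IsAtkinLehnerEigen N k f Q := by
    intro Q hQ hQc
    by_cases hQ1 : Q = 1
    · subst hQ1
      exact ⟨1, 1, 1, 0, 0, 1, one_ne_zero, by ext i j; fin_cases i <;> fin_cases j <;> simp,
        by simp, by simp⟩
    · exact hAL' Q hQ hQc hQ1
  have hχi := inv_eq_of_orderOf_two hχ
  have hψi := inv_eq_of_orderOf_two hψ
  obtain ⟨hQN, hQc, hQm, hNQ⟩ := level_split hN0 hN (mod_four_ne_two hψp)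
  set Q := N / N.gcd m with hQdef
  have hQ : 0 < Q := Nat.pos_of_ne_zero (fun h ↦ hN0 (by rw [hNQ, h, zero_mul]))
  obtain ⟨W, w, x, y, z, t, hw, hW, hdet, hfW⟩ := hAL Q hQN hQc
  -- `χ` is `1` on divisors of `N`
  have hχd : ∀ d : ℕ, d ∣ N → χ d = 1 := by
    intro d hd
    have hd0 : d ≠ 0 := fun h ↦ hN0 (by rw [h] at hd; exact Nat.eq_zero_of_zero_dvd hd)
    induction d using Nat.recOnMul with
    | zero => exact absurd rfl hd0
    | one => simp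
    | prime p hp => exact hχN p hp hd
    | mul a b iha ihb =>
      push_cast
      rw [map_mul, iha ((dvd_mul_right a b).trans hd) (left_ne_zero_of_mul hd0),
        ihb ((dvd_mul_left b a).trans hd) (right_ne_zero_of_mul hd0), one_mul]
  have hcopq : ∀ d : ℕ, d ∣ N → Nat.Coprime d q := by
    intro d hd
    have h1 : IsUnit ((d : ℕ) : ZMod q) := by
      by_contra hu
      have := hχd d hd
      rw [χ.map_nonunit hu] at this
      exact zero_ne_one this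
    exact (ZMod.isUnit_iff_coprime d q).mp h1
  set m' := (χ.mul ψ).conductor with hm'
  have hm'l : m' ∣ Nat.lcm q m := conductor_dvd_lcm χ ψ
  have hQm' : Nat.Coprime Q m' := by
    have h1 : Nat.Coprime Q (q * m) := (hcopq Q hQN).mul_right hQm
    exact h1.coprime_dvd_right (hm'l.trans (Nat.lcm_dvd_mul q m))
  have hgN : N.gcd m ∣ N := Nat.gcd_dvd_left N m
  have hgm : N.gcd m ∣ m := Nat.gcd_dvd_right N m
  have hgm' : N.gcd m ∣ m' := by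
    have h1 : m ∣ Nat.lcm q m' := modulus_dvd_lcm χ ψ hχi hψp
    have h2 : N.gcd m ∣ q * m' := hgm.trans (h1.trans (Nat.lcm_dvd_mul q m'))
    exact (hcopq _ hgN).dvd_of_dvd_mul_left h2
  obtain ⟨L₁, hL₁, hv₁⟩ := twist_eigen hk hd hf hQ hNQ hw hW hdet hfW hgm hQm hψp hψi
  obtain ⟨L₂, hL₂, hv₂⟩ := twist_eigen hk hd hf hQ hNQ hw hW hdet hfW hgm' hQm'
    (DirichletCharacter.primitive_mul_isPrimitive χ ψ) (primitive_mul_inv χ ψ hχi hψi)
  refine ⟨⟨L₁, hL₁, fun L hL ↦ hL.unique hL₁⟩, ⟨L₂, hL₂, fun L hL ↦ hL.unique hL₂⟩, ?_⟩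
  intro L₁' L₂' h₁ h₂
  rw [h₁.unique hL₁, h₂.unique hL₂]
  by_contra hne
  have hne₁ := left_ne_zero_of_mul hne
  have hne₂ := right_ne_zero_of_mul hne
  have e₁ := not_imp_comm.mp hv₁ hne₁
  have e₂ := not_imp_comm.mp hv₂ hne₂
  have hθQ : (χ.primitive_mul ψ) (-(Q : ZMod m')) = -ψ (-(Q : ZMod m)) := by
    have h1 := primitive_mul_apply χ ψ (a := -(Q : ℤ))
      (by rw [IsCoprime.neg_left_iff]; exact Nat.isCoprime_iff_coprime.mpr (hcopq Q hQN))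
      (by rw [IsCoprime.neg_left_iff]; exact Nat.isCoprime_iff_coprime.mpr hQm)
    push_cast at h1
    rw [h1]
    have h2 : χ (-(Q : ZMod q)) = -1 := by
      rw [← neg_one_mul, map_mul, hχodd, hχd Q hQN, mul_one]
    rw [h2, neg_one_mul]
  rw [hθQ] at e₂
  have e₃ : (1 : ℂ) + 1 = 0 := by
    linear_combination -e₁ - e₂
  norm_num at e₃

end Pool.Agent.W_MP_d17ed7_nt
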