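import Mathlib

/-!
The eta product `η(z)^2 η(3z)^2` and its behaviour under the group of matrices `(a, b; 3c, d)`.
-/

open Complex Filter Set
open scoped Real MatrixGroups ModularForm

namespace Pool.Agent.W_MP_d17ed7_nt

open UpperHalfPlane hiding I

/-- The eta product `η(z)^2 η(3z)^2`. -/
noncomputable def etaProd (z : ℂ) : ℂ := ModularForm.eta z ^ 2 * ModularForm.eta (3 * z) ^ 2

/-- The primitive cube root of unity `exp (2 π i / 3)`. -/
noncomputable def om : ℂ := cexp (2 * π * I / 3)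

lemma om_ne_zero : om ≠ 0 := Complex.exp_ne_zero _

lemma om_pow_three : om ^ 3 = 1 := by
  rw [om, ← Complex.exp_nat_mul]
  rw [show ((3 : ℕ) : ℂ) * (2 * π * I / 3) = 2 * π * I by push_cast; ring]
  exact Complex.exp_two_pi_mul_I

lemma om_zpow_three : om ^ (3 : ℤ) = 1 := by exact_mod_cast om_pow_three

lemma om_zpow_of_dvd {a b : ℤ} (h : (3 : ℤ) ∣ a - b) : om ^ a = om ^ b := by
  obtain ⟨c, hc⟩ := h
  have : a = 3 * c + b := by omega
  rw [this, zpow_add₀ om_ne_zero, zpow_mul, om_zpow_three, one_zpow, one_mul]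

lemma eta_add_one (z : ℂ) : ModularForm.eta (z + 1) = cexp (2 * π * I / 24) * ModularForm.eta z := by
  have h1 : ∀ n : ℕ, ModularForm.eta_q n (z + 1) = ModularForm.eta_q n z := by
    intro n
    rw [ModularForm.eta_q_eq_pow, ModularForm.eta_q_eq_pow, mul_add, mul_one, Complex.exp_add,
      Complex.exp_two_pi_mul_I, mul_one]
  unfold ModularForm.eta
  simp only [h1]
  rw [← mul_assoc]
  congr 1
  unfold Function.Periodic.qParam
  rw [← Complex.exp_add]
  congr 1
  push_cast
  ring

lemma eta_S {z : ℂ} (hz : 0 < z.im) : ModularForm.eta (-1 / z) ^ 2 = -I * z * ModularForm.eta z ^ 2 := by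
  have h := ModularForm.eta_comp_eq_csqrt_I_inv hz
  simp only [Function.comp_apply, Pi.smul_apply, Pi.mul_apply, smul_eq_mul] at h
  rw [h]
  have hsq : ∀ w : ℂ, w ≠ 0 → sqrt w ^ 2 = w := by
    intro w hw
    rw [sqrt_eq_exp hw, ← Complex.exp_nat_mul]
    rw [show ((2 : ℕ) : ℂ) * (log w / 2) = log w by push_cast; ring, exp_log hw]
  have hz0 : z ≠ 0 := by rintro rfl; simp at hz
  rw [mul_pow, mul_pow, inv_pow, hsq _ I_ne_zero, hsq _ hz0, Complex.inv_I]
  ring

lemma etaProd_add_one (z : ℂ) : etaProd (z + 1) = om * etaProd z := by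
  unfold etaProd
  have h3 : ModularForm.eta (3 * (z + 1)) = cexp (2 * π * I / 24) ^ 3 * ModularForm.eta (3 * z) := by
    rw [show 3 * (z + 1) = ((3 * z + 1) + 1) + 1 by ring, eta_add_one, eta_add_one, eta_add_one]
    ring
  rw [h3, eta_add_one]
  have h8 : cexp (2 * π * I / 24) ^ 8 = om := by
    rw [om, ← Complex.exp_nat_mul]
    congr 1
    push_cast
    ring
  rw [← h8]
  ring

lemma etaProd_sub_one (z : ℂ) : etaProd (z - 1) = om⁻¹ * etaProd z := by
  have := etaProd_add_one (z - 1)
  rw [sub_add_cancel] at this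
  rw [this, inv_mul_cancel_left₀ om_ne_zero]

lemma etaProd_add_int (z : ℂ) (n : ℤ) : etaProd (z + n) = om ^ n * etaProd z := by
  induction n using Int.induction_on with
  | zero => simp
  | succ n ih =>
    rw [show z + ((n + 1 : ℤ) : ℂ) = (z + (n : ℤ)) + 1 by push_cast; ring, etaProd_add_one, ih,
      zpow_add_one₀ om_ne_zero]
    ring
  | pred n ih =>
    rw [show z + ((-(n : ℤ) - 1 : ℤ) : ℂ) = (z + ((-(n : ℤ) : ℤ) : ℂ)) - 1 by push_cast; ring,
      etaProd_sub_one, ih, zpow_sub_one₀ om_ne_zero]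
    ring

lemma etaProd_W {z : ℂ} (hz : 0 < z.im) : etaProd (-1 / (3 * z)) = -3 * z ^ 2 * etaProd z := by
  have hz0 : z ≠ 0 := by rintro rfl; simp at hz
  have hz3 : 0 < (3 * z).im := by simpa using hz
  unfold etaProd
  rw [eta_S hz3, show 3 * (-1 / (3 * z)) = -1 / z by field_simp, eta_S hz]
  linear_combination (3 * z ^ 2 * ModularForm.eta (3 * z) ^ 2 * ModularForm.eta z ^ 2) * I_sq

lemma im_neg_inv {z : ℂ} (hz : 0 < z.im) : 0 < (-1 / (3 * z)).im := by
  have hz3 : 0 < (3 * z).im := by simpa using hz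
  have h0 : 3 * z ≠ 0 := by intro h; rw [h] at hz3; simp at hz3
  rw [neg_div, one_div, neg_im, inv_im, neg_div, neg_neg]
  exact div_pos hz3 (normSq_pos.mpr h0)

lemma etaProd_V {z : ℂ} (hz : 0 < z.im) (n : ℤ) :
    etaProd (z / (3 * n * z + 1)) = om ^ (-n) * (3 * n * z + 1) ^ 2 * etaProd z := by
  have hz0 : z ≠ 0 := by rintro rfl; simp at hz
  set z' : ℂ := -1 / (3 * z) with hz'
  have him : 0 < z'.im := im_neg_inv hz
  have him2 : 0 < (z' + ((-n : ℤ) : ℂ)).im := by simpa using him
  have hne : z' + ((-n : ℤ) : ℂ) ≠ 0 := by intro h; rw [h] at him2; simp at him2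
  have hrel : z' + ((-n : ℤ) : ℂ) = -(3 * n * z + 1) / (3 * z) := by
    rw [hz']; push_cast; field_simp; ring
  have hne2 : 3 * n * z + 1 ≠ 0 := by
    intro h; apply hne; rw [hrel, h]; simp
  have e1 : z / (3 * n * z + 1) = -1 / (3 * (z' + ((-n : ℤ) : ℂ))) := by
    rw [hrel]; field_simp
  rw [e1, etaProd_W him2, etaProd_add_int, hz', etaProd_W hz, ← hz', hrel]
  field_simp

/-- Transformation of the eta product under `(a, b; 3c, d)`. -/
def EtaLaw (a b c d : ℤ) : Prop := ∀ z : ℂ, 0 < z.im →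
  etaProd ((a * z + b) / (3 * c * z + d)) =
    om ^ (a * b - c * d) * (3 * c * z + d) ^ 2 * etaProd z

lemma denom_ne {c d : ℤ} (h : c ≠ 0 ∨ d ≠ 0) {z : ℂ} (hz : 0 < z.im) : (3 * c * z + d : ℂ) ≠ 0 := by
  intro h0
  have h1 := congrArg Complex.im h0
  have : (3 * (c : ℂ) * z + d).im = 3 * c * z.im := by
    simp [mul_im]
  rw [this, zero_im] at h1
  have hc : c = 0 := by
    have : (3 * (c : ℝ)) = 0 := by
      rcases mul_eq_zero.mp h1 with h | h
      · exact h
      · exact absurd h hz.ne'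
    have : (c : ℝ) = 0 := by linarith
    exact_mod_cast this
  rw [hc] at h0
  simp at h0
  rcases h with h | h
  · exact h hc
  · exact h h0

lemma EtaLaw.mul_T {a b c d : ℤ} (hdet : a * d - b * (3 * c) = 1) (h : EtaLaw a b c d) (n : ℤ) :
    EtaLaw a (b + n * a) c (d + n * (3 * c)) := by
  intro z hz
  have hz' : 0 < (z + (n : ℂ)).im := by simpa using hz
  have := h (z + n) hz'
  rw [etaProd_add_int] at this
  have e1 : (a * z + ((b + n * a : ℤ) : ℂ)) / (3 * c * z + ((d + n * (3 * c) : ℤ) : ℂ)) =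
      (a * (z + n) + b) / (3 * c * (z + n) + d) := by
    push_cast; congr 1 <;> ring
  have e2 : (3 * c * z + ((d + n * (3 * c) : ℤ) : ℂ)) = 3 * c * (z + n) + d := by
    push_cast; ring
  rw [e1, e2, this]
  have e3 : om ^ (a * (b + n * a) - c * (d + n * (3 * c))) = om ^ (a * b - c * d) * om ^ n := by
    rw [← zpow_add₀ om_ne_zero]
    apply om_zpow_of_dvd
    have h1 : (3 : ℤ) ∣ a * a - 1 := by
      have h2 : (a * d - b * (3 * c)) % 3 = 1 := by rw [hdet]; rfl
      have h3 : (a * d) % 3 = 1 := by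
        have : a * d = 1 + 3 * (b * c) := by linarith
        omega
      have ha : a % 3 = 0 ∨ a % 3 = 1 ∨ a % 3 = 2 := by omega
      rcases ha with ha | ha | ha
      · exfalso
        rw [Int.mul_emod, ha] at h3
        simp at h3
      · apply Int.dvd_of_emod_eq_zero
        rw [Int.sub_emod, Int.mul_emod, ha]; norm_num
      · apply Int.dvd_of_emod_eq_zero
        rw [Int.sub_emod, Int.mul_emod, ha]; norm_num
    obtain ⟨e, he⟩ := h1
    refine ⟨n * e - c * c * n, ?_⟩
    linear_combination n * he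
  rw [e3]
  ring

lemma EtaLaw.mul_V {a b c d : ℤ} (hdet : a * d - b * (3 * c) = 1) (h : EtaLaw a b c d) (n : ℤ) :
    EtaLaw (a + 3 * n * b) b (c + n * d) d := by
  intro z hz
  have hne : (3 * n * z + ((1 : ℤ) : ℂ)) ≠ 0 := denom_ne (Or.inr one_ne_zero) hz
  push_cast at hne
  have him : 0 < (z / (3 * n * z + 1)).im := by
    have h1 : (z / (3 * n * z + 1)).im = z.im / normSq (3 * n * z + 1) := by
      rw [div_im]
      simp only [add_re, mul_re, add_im, mul_im, one_re, one_im, intCast_re, intCast_im]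
      have h3r : (3 : ℂ).re = 3 := rfl
      have h3i : (3 : ℂ).im = 0 := rfl
      rw [h3r, h3i]
      ring
    rw [h1]
    exact div_pos hz (normSq_pos.mpr hne)
  have := h _ him
  rw [etaProd_V hz] at this
  have hcd : c + n * d ≠ 0 ∨ d ≠ 0 := by
    by_contra hcon
    push Not at hcon
    obtain ⟨h1, h2⟩ := hcon
    rw [h2] at h1 hdet
    simp at h1
    rw [h1] at hdet
    simp at hdet
  have hne2 : (3 * ((c + n * d : ℤ) : ℂ) * z + d) ≠ 0 := denom_ne hcd hz
  push_cast at hne2
  have e2 : (3 * c * (z / (3 * n * z + 1)) + d) = (3 * ((c + n * d : ℤ) : ℂ) * z + d) / (3 * n * z + 1) := by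
    rw [eq_div_iff hne, add_mul, mul_assoc, div_mul_cancel₀ _ hne]
    push_cast
    ring
  have e1 : (((a + 3 * n * b : ℤ) : ℂ) * z + b) / (3 * ((c + n * d : ℤ) : ℂ) * z + d) =
      (a * (z / (3 * n * z + 1)) + b) / (3 * c * (z / (3 * n * z + 1)) + d) := by
    have e0 : a * (z / (3 * n * z + 1)) + b =
        (((a + 3 * n * b : ℤ) : ℂ) * z + b) / (3 * n * z + 1) := by
      rw [eq_div_iff hne, add_mul, mul_assoc, div_mul_cancel₀ _ hne]
      push_cast
      ring
    rw [e2, e0, div_div_div_cancel_right₀ hne]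
  rw [e1, this, e2]
  have e3 : om ^ ((a + 3 * n * b) * b - (c + n * d) * d) = om ^ (a * b - c * d) * om ^ (-n) := by
    rw [← zpow_add₀ om_ne_zero]
    apply om_zpow_of_dvd
    have h1 : (3 : ℤ) ∣ d * d - 1 := by
      have h3 : (a * d) % 3 = 1 := by
        have : a * d = 1 + 3 * (b * c) := by linarith
        omega
      have hd : d % 3 = 0 ∨ d % 3 = 1 ∨ d % 3 = 2 := by omega
      rcases hd with hd | hd | hd
      · exfalso
        rw [Int.mul_emod, hd] at h3
        simp at h3
      · apply Int.dvd_of_emod_eq_zero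
        rw [Int.sub_emod, Int.mul_emod, hd]; norm_num
      · apply Int.dvd_of_emod_eq_zero
        rw [Int.sub_emod, Int.mul_emod, hd]; norm_num
    obtain ⟨e, he⟩ := h1
    refine ⟨n * b * b - n * e, ?_⟩
    linear_combination (-n) * he
  rw [e3, div_pow]
  have hne3 : (3 * n * z + 1 : ℂ) ^ 2 ≠ 0 := pow_ne_zero _ hne
  rw [mul_div_assoc', div_mul_eq_mul_div, div_eq_iff hne3]
  ring

lemma exists_balanced (x m : ℤ) (hm : m ≠ 0) : ∃ n : ℤ, 2 * (x + n * m).natAbs ≤ m.natAbs := by
  have h1 := Int.emod_nonneg x hm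
  have h2 := Int.emod_lt_abs x hm
  have h3 := Int.emod_add_mul_ediv x m
  rw [Int.abs_eq_natAbs] at h2
  by_cases h : 2 * (x % m) ≤ m.natAbs
  · refine ⟨-(x / m), ?_⟩
    have : x + -(x / m) * m = x % m := by linarith
    rw [this]
    omega
  · push Not at h
    rcases lt_or_gt_of_ne hm with hneg | hpos
    · refine ⟨-(x / m) + 1, ?_⟩
      have : x + (-(x / m) + 1) * m = x % m + m := by linarith
      rw [this]
      omega
    · refine ⟨-(x / m) - 1, ?_⟩
      have : x + (-(x / m) - 1) * m = x % m - m := by linarith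
      rw [this]
      omega

/-- The transformation law holds for every matrix `(a, b; 3c, d)` of determinant `1`. -/
theorem etaLaw_all : ∀ (N : ℕ) (a b c d : ℤ), c.natAbs ≤ N → a * d - b * (3 * c) = 1 →
    EtaLaw a b c d := by
  intro N
  induction N with
  | zero =>
    intro a b c d hc hdet
    have hc0 : c = 0 := by omega
    subst hc0
    have had : a * d = 1 := by linarith
    intro z hz
    rcases Int.eq_one_or_neg_one_of_mul_eq_one had with rfl | rfl
    · have hd : d = 1 := by linarith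
      subst hd
      have := etaProd_add_int z b
      simpa using this
    · have hd : d = -1 := by linarith
      subst hd
      have := etaProd_add_int z (-b)
      have e1 : (((-1 : ℤ) : ℂ) * z + b) / (3 * ((0 : ℤ) : ℂ) * z + ((-1 : ℤ) : ℂ)) = z + ((-b : ℤ) : ℂ) := by
        push_cast
        ring
      rw [e1, this]
      push_cast
      ring_nf
  | succ N ih =>
    intro a b c d hc hdet
    by_cases hc0 : c = 0
    · exact ih a b c d (by omega) hdet
    -- reduce `d` modulo `3c`
    obtain ⟨n, hn⟩ : ∃ n : ℤ, 2 * (d + n * (3 * c)).natAbs ≤ 3 * c.natAbs := by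
      obtain ⟨n, hn⟩ := exists_balanced d (3 * c) (by omega)
      exact ⟨n, by omega⟩
    set d' := d + n * (3 * c) with hd'
    set b' := b + n * a with hb'
    have hdet' : a * d' - b' * (3 * c) = 1 := by
      rw [hd', hb']; linear_combination hdet
    have hd0 : d' ≠ 0 := by
      intro h0
      rw [h0] at hdet'
      have : (3 : ℤ) ∣ 1 := ⟨-b' * c, by linarith⟩
      omega
    obtain ⟨n', hn'⟩ : ∃ n' : ℤ, 2 * (c + n' * d').natAbs ≤ d'.natAbs :=
      exists_balanced c d' hd0
    set c' := c + n' * d' with hc'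
    set a' := a + 3 * n' * b' with ha'
    have hdet'' : a' * d' - b' * (3 * c') = 1 := by
      rw [hc', ha']; linear_combination hdet'
    have hlt : c'.natAbs ≤ N := by omega
    have h1 := ih a' b' c' d' hlt hdet''
    have h2 := h1.mul_V hdet'' (-n')
    have e1 : a' + 3 * -n' * b' = a := by rw [ha']; ring
    have e2 : c' + -n' * d' = c := by rw [hc']; ring
    rw [e1, e2] at h2
    have h3 := h2.mul_T hdet' (-n)
    have e3 : b' + -n * a = b := by rw [hb']; ring
    have e4 : d' + -n * (3 * c) = d := by rw [hd']; ring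
    rw [e3, e4] at h3
    exact h3

end Pool.Agent.W_MP_d17ed7_nt
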