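import Mathlib
import Pool.Agent.W_MP_d17ed7_nt.General
import Pool.Agent.W_MP_d17ed7_nt.EtaQuot

/-!
The cusp form `η(3z)^2 η(9z)^2` of weight 2 and level 27.
-/

open Complex Filter Set
open scoped Real MatrixGroups ModularForm Manifold

namespace Pool.Agent.W_MP_d17ed7_nt

open UpperHalfPlane hiding I

/-- The function `η(3z)^2 η(9z)^2` on the upper half plane. -/
noncomputable def fun27 (z : ℍ) : ℂ :=
  ModularForm.eta (3 * (z : ℂ)) ^ 2 * ModularForm.eta (9 * (z : ℂ)) ^ 2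

lemma fun27_eq (z : ℍ) : fun27 z = etaProd (3 * (z : ℂ)) := by
  unfold fun27 etaProd
  rw [show (9 : ℂ) * z = 3 * (3 * z) by ring]

lemma fun27_slash (γ : SL(2, ℤ)) (hγ : γ ∈ CongruenceSubgroup.Gamma0 27) :
    fun27 ∣[(2 : ℤ)] γ = fun27 := by
  ext z
  rw [ModularForm.slash_action_eq'_iff, fun27_eq, fun27_eq]
  obtain ⟨c, hc⟩ : (27 : ℤ) ∣ γ 1 0 := by
    rw [CongruenceSubgroup.Gamma0_mem] at hγ
    exact (ZMod.intCast_zmod_eq_zero_iff_dvd _ 27).mp hγ
  have hdet : γ 0 0 * γ 1 1 - γ 0 1 * γ 1 0 = 1 := by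
    have := γ.det_coe
    rw [Matrix.det_fin_two] at this
    exact this
  rw [hc] at hdet
  have hz : 0 < (3 * (z : ℂ)).im := by
    have := z.im_pos
    simpa using this
  have hlaw := etaLaw_all _ (γ 0 0) (3 * γ 0 1) (3 * c) (γ 1 1) le_rfl
    (by linear_combination hdet) (3 * z) hz
  have hom : om ^ (γ 0 0 * (3 * γ 0 1) - 3 * c * γ 1 1) = 1 := by
    rw [← zpow_zero om]
    apply om_zpow_of_dvd
    exact ⟨γ 0 0 * γ 0 1 - c * γ 1 1, by ring⟩
  rw [hom, one_mul] at hlaw
  have e1 : (3 * ((γ • z : ℍ) : ℂ)) =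
      ((γ 0 0 : ℂ) * (3 * z) + ((3 * γ 0 1 : ℤ) : ℂ)) / (3 * ((3 * c : ℤ) : ℂ) * (3 * z) + γ 1 1) := by
    rw [coe_specialLinearGroup_apply, hc]
    simp only [algebraMap_int_eq, eq_intCast, ofReal_intCast]
    rw [mul_div_assoc']
    push_cast
    congr 1 <;> ring
  rw [e1, hlaw, hc]
  push_cast
  rw [zpow_ofNat]
  ring

lemma fun27_mdiff : MDiff fun27 := by
  rw [UpperHalfPlane.mdifferentiable_iff]
  have h1 : DifferentiableOn ℂ (fun z : ℂ ↦ ModularForm.eta (3 * z) ^ 2 *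
      ModularForm.eta (9 * z) ^ 2) {z | 0 < z.im} := by
    intro z hz
    have hz3 : 0 < (3 * z).im := by
      have : 0 < z.im := hz
      simpa using this
    have hz9 : 0 < (9 * z).im := by
      have : 0 < z.im := hz
      simpa using this
    have d3 : DifferentiableAt ℂ (fun z : ℂ ↦ ModularForm.eta (3 * z)) z :=
      (ModularForm.differentiableAt_eta_of_mem_upperHalfPlaneSet hz3).comp z (by fun_prop)
    have d9 : DifferentiableAt ℂ (fun z : ℂ ↦ ModularForm.eta (9 * z)) z :=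
      (ModularForm.differentiableAt_eta_of_mem_upperHalfPlaneSet hz9).comp z (by fun_prop)
    exact ((d3.pow 2).mul (d9.pow 2)).differentiableWithinAt
  refine h1.congr fun z hz ↦ ?_
  have hz' : 0 < z.im := hz
  simp only [Function.comp_apply, fun27]
  rw [ofComplex_apply_of_im_pos hz']

/-- Scaling matrix. -/
noncomputable def scaleMat (n : ℚ) (hn : n ≠ 0) : GL (Fin 2) ℚ :=
  Matrix.GeneralLinearGroup.mkOfDetNeZero !![n, 0; 0, 1] (by simp [Matrix.det_fin_two, hn])

lemma zero_disc_scale {n : ℚ} (hn : 0 < n) (γ : SL(2, ℤ)) :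
    IsZeroAtImInfty (ModularForm.discriminant ∣[(12 : ℤ)]
      ((scaleMat n hn.ne').map (Rat.castHom ℝ) * (γ : GL (Fin 2) ℝ))) := by
  have h1 : IsCusp (((scaleMat n hn.ne').map (Rat.castHom ℝ) * (γ : GL (Fin 2) ℝ)) •
      (OnePoint.infty : OnePoint ℝ)) (𝒮ℒ) := by
    rw [isCusp_SL2Z_iff]
    refine ⟨(scaleMat n hn.ne' * (Matrix.SpecialLinearGroup.mapGL ℚ γ)) • OnePoint.infty, ?_⟩
    have := OnePoint.map_smul (Rat.castHom ℝ)
      (scaleMat n hn.ne' * (Matrix.SpecialLinearGroup.mapGL ℚ γ)) OnePoint.infty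
    rw [OnePoint.map_infty, map_mul] at this
    have h2 : (Matrix.SpecialLinearGroup.mapGL ℚ γ).map (Rat.castHom ℝ) = (γ : GL (Fin 2) ℝ) := by
      ext i j
      simp [Matrix.SpecialLinearGroup.mapGL]
    rw [h2] at this
    exact this
  exact CuspForm.discriminant.zero_at_cusps' h1 _ rfl

lemma disc_slash_scale {n : ℚ} (hn : 0 < n) (τ : ℍ) :
    (ModularForm.discriminant ∣[(12 : ℤ)] ((scaleMat n hn.ne').map (Rat.castHom ℝ))) τ =
      ModularForm.eta ((n : ℂ) * τ) ^ 24 * (n : ℂ) ^ 11 := by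
  have hnr : (0 : ℝ) < n := by exact_mod_cast hn
  set M : GL (Fin 2) ℝ := (scaleMat n hn.ne').map (Rat.castHom ℝ) with hMdef
  have hM : (M : Matrix (Fin 2) (Fin 2) ℝ) = !![(n : ℝ), 0; 0, 1] := by
    ext i j
    rw [hMdef]
    fin_cases i <;> fin_cases j <;> simp [scaleMat, Matrix.GeneralLinearGroup.mkOfDetNeZero]
  have hdet : M.det.val = n := by
    rw [Matrix.GeneralLinearGroup.val_det_apply, hM, Matrix.det_fin_two_of]
    ring
  have hσ : σ M = ContinuousAlgEquiv.refl ℝ ℂ := by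
    rw [σ, if_pos (by rw [hdet]; exact hnr)]
  have hden : denom M τ = 1 := by
    rw [denom, hM]
    simp
  have hnum : num M τ = (n : ℂ) * τ := by
    rw [num, hM]
    simp
  rw [ModularForm.slash_apply, hσ, hdet, abs_of_pos hnr, hden, one_zpow, mul_one]
  have h1 : ((M • τ : ℍ) : ℂ) = (n : ℂ) * τ := by
    rw [coe_smul_of_det_pos (by rw [hdet]; exact hnr), hden, hnum, div_one]
  have h2 : ModularForm.discriminant (M • τ) = ModularForm.eta ((n : ℂ) * τ) ^ 24 := by
    rw [ModularForm.discriminant, h1]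
  change ModularForm.discriminant (M • τ) * _ = _
  rw [h2]
  congr 1

lemma fun27_pow (γ : SL(2, ℤ)) (z : ℍ) : ((fun27 ∣[(2 : ℤ)] γ) z) ^ 12 =
      (ModularForm.discriminant ∣[(12 : ℤ)]
        ((scaleMat 3 three_ne_zero).map (Rat.castHom ℝ) * (γ : GL (Fin 2) ℝ))) z *
      (ModularForm.discriminant ∣[(12 : ℤ)]
        ((scaleMat 9 (by norm_num)).map (Rat.castHom ℝ) * (γ : GL (Fin 2) ℝ))) z *
      ((3 : ℂ) ^ 11 * 9 ^ 11)⁻¹ := by
  have hden : denom (γ : GL (Fin 2) ℝ) z ≠ 0 := denom_ne_zero _ z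
  rw [SlashAction.slash_mul, SlashAction.slash_mul]
  rw [← ModularForm.SL_slash, ← ModularForm.SL_slash, ModularForm.SL_slash_apply,
    ModularForm.SL_slash_apply, ModularForm.SL_slash_apply,
    disc_slash_scale (n := 3) (by norm_num), disc_slash_scale (n := 9) (by norm_num)]
  unfold fun27
  push_cast
  simp only [zpow_neg]
  have e1 : ∀ x : ℂ, x ^ (2 : ℤ) = x ^ 2 := fun x ↦ by norm_cast
  have e2 : ∀ x : ℂ, x ^ (12 : ℤ) = x ^ 12 := fun x ↦ by norm_cast
  rw [e1, e2]
  field_simp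

lemma fun27_zero (γ : SL(2, ℤ)) : IsZeroAtImInfty (fun27 ∣[(2 : ℤ)] γ) := by
  have h1 : Tendsto (fun z : ℍ ↦ ((fun27 ∣[(2 : ℤ)] γ) z) ^ 12) atImInfty (nhds 0) := by
    simp_rw [fun27_pow]
    have h3 := zero_disc_scale (n := 3) (by norm_num) γ
    have h9 := zero_disc_scale (n := 9) (by norm_num) γ
    have := (Tendsto.mul h3 h9).mul_const (((3 : ℂ) ^ 11 * 9 ^ 11)⁻¹)
    simpa using this
  rw [IsZeroAtImInfty, ZeroAtFilter, Metric.tendsto_nhds]
  intro ε hε
  rw [Metric.tendsto_nhds] at h1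
  filter_upwards [h1 (ε ^ 12) (pow_pos hε 12)] with z hz
  rw [dist_zero_right] at hz ⊢
  rw [norm_pow] at hz
  exact lt_of_pow_lt_pow_left₀ 12 hε.le hz

/-- The cusp form `η(3z)^2 η(9z)^2` of weight 2 and level 27. -/
noncomputable def form27 : CuspForm (CongruenceSubgroup.Gamma0 27) 2 where
  toFun := fun27
  slash_action_eq' A hA := by
    obtain ⟨γ, hγ, rfl⟩ := hA
    exact fun27_slash γ hγ
  holo' := fun27_mdiff
  zero_at_cusps' hc := by
    rw [Subgroup.IsArithmetic.isCusp_iff_isCusp_SL2Z] at hc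
    rw [OnePoint.isZeroAt_iff_forall_SL2Z hc]
    intro γ _
    exact fun27_zero γ

@[simp] lemma form27_apply (z : ℍ) : form27 z = fun27 z := rfl

/-- The Fricke matrix of level 27. -/
noncomputable def fricke27 : GL (Fin 2) ℝ :=
  Matrix.GeneralLinearGroup.mkOfDetNeZero !![0, -1; 27, 0] (by simp [Matrix.det_fin_two])

lemma fricke27_coe : (fricke27 : Matrix (Fin 2) (Fin 2) ℝ) = !![0, -1; 27, 0] := rfl

lemma fricke27_det : fricke27.det.val = 27 := by
  rw [Matrix.GeneralLinearGroup.val_det_apply, fricke27_coe, Matrix.det_fin_two_of]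
  norm_num

lemma form27_fricke : (form27 : ℍ → ℂ) ∣[(2 : ℤ)] fricke27 = (-1 : ℂ) • (form27 : ℍ → ℂ) := by
  ext z
  have hpos : 0 < fricke27.det.val := by rw [fricke27_det]; norm_num
  have hσ : σ fricke27 = ContinuousAlgEquiv.refl ℝ ℂ := by
    rw [σ, if_pos hpos]
  have hden : denom fricke27 z = 27 * z := by
    rw [denom, fricke27_coe]
    simp
  have hnum : num fricke27 z = -1 := by
    rw [num, fricke27_coe]
    simp
  have hz0 : (z : ℂ) ≠ 0 := ne_zero z
  have h9 : 0 < (3 * (z : ℂ)).im := by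
    have := z.im_pos
    simpa using this
  have h1 : ((fricke27 • z : ℍ) : ℂ) = -1 / (27 * z) := by
    rw [coe_smul_of_det_pos hpos, hden, hnum]
  have h2 : form27 (fricke27 • z) = -27 * (z : ℂ) ^ 2 * form27 z := by
    rw [form27_apply, form27_apply, fun27_eq, fun27_eq, h1]
    have := etaProd_W h9
    rw [show (3 : ℂ) * (-1 / (27 * z)) = -1 / (3 * (3 * z)) by field_simp; norm_num, this]
    ring
  rw [ModularForm.slash_apply, hσ, fricke27_det, hden]
  change form27 (fricke27 • z) * _ * _ = _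
  rw [h2]
  simp only [Pi.smul_apply, smul_eq_mul]
  have e1 : (((|(27 : ℝ)| : ℝ) : ℂ)) ^ ((2 : ℤ) - 1) = 27 := by
    norm_num
  have e2 : (27 * (z : ℂ)) ^ (-(2 : ℤ)) = ((27 * (z : ℂ)) ^ 2)⁻¹ := by
    rw [zpow_neg]
    norm_cast
  rw [e1, e2]
  field_simp

lemma form27_strictWidth :
    (CongruenceSubgroup.Gamma0 27 : Subgroup (GL (Fin 2) ℝ)).strictWidthInfty = 1 :=
  CongruenceSubgroup.strictWidthInfty_Gamma0 27

lemma form27_data : CuspData 2 form27 :=
  CuspData.of_cuspForm form27_strictWidth form27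

/-- The coefficients of the form are supported on `n ≡ 1 mod 3`. -/
lemma form27_coeff {n : ℕ} (hn : n % 3 ≠ 1) : (qExpansion 1 form27).coeff n = 0 := by
  have hΓ : (1 : ℝ) ∈ (CongruenceSubgroup.Gamma0 27 : Subgroup (GL (Fin 2) ℝ)).strictPeriods := by
    simp
  have hkey : ∀ τ : ℍ, HasSum (fun m : ℕ ↦
      (om⁻¹ * om ^ m * (qExpansion 1 form27).coeff m) • Function.Periodic.qParam 1 τ ^ m)
      (form27 τ) := by
    intro τ
    have him : 0 < ((τ : ℂ) + 1 / 3).im := by
      have := τ.im_pos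
      have h3 : ((1 : ℂ) / 3).im = 0 := by norm_num
      rw [add_im, h3]
      simpa using this
    have h1 := form27_data.hasSum ((τ : ℂ) + 1 / 3) him
    have h2 : form27 (ofComplex ((τ : ℂ) + 1 / 3)) = om * form27 τ := by
      rw [ofComplex_apply_of_im_pos him, form27_apply, form27_apply, fun27_eq, fun27_eq]
      have := etaProd_add_one (3 * (τ : ℂ))
      rw [← this]
      congr 1
      change 3 * ((τ : ℂ) + 1 / 3) = _
      ring
    rw [h2] at h1
    have h3 := h1.mul_left om⁻¹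
    rw [inv_mul_cancel_left₀ om_ne_zero] at h3
    convert! h3 using 2 with m
    rw [smul_eq_mul, Function.Periodic.qParam, ← Complex.exp_nat_mul, om, ← Complex.exp_neg,
      ← Complex.exp_nat_mul]
    have e1 : cexp (2 * π * I * m * ((τ : ℂ) + 1 / 3)) =
        cexp (m * (2 * π * I / 3)) * cexp (m * (2 * π * I * τ / (1 : ℝ))) := by
      rw [← Complex.exp_add]
      congr 1
      push_cast
      ring
    rw [e1]
    ring
  have h := ModularFormClass.qExpansion_coeff_unique (f := form27) one_pos hΓ hkey n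
  by_contra hne
  have h2 : om⁻¹ * om ^ n = 1 := by
    have := h
    exact mul_right_cancel₀ hne (by rw [this, one_mul])
  have h3 : om ^ n = om := by
    have := congrArg (fun x ↦ om * x) h2
    simpa [mul_inv_cancel_left₀ om_ne_zero] using this
  have hprim : IsPrimitiveRoot om 3 := by
    have := Complex.isPrimitiveRoot_exp 3 (by norm_num)
    simpa [om] using this
  have h4 : om ^ (n % 3) = om ^ 1 := by
    have h5 : om ^ n = om ^ (n % 3) := by
      conv_lhs => rw [← Nat.mod_add_div n 3, pow_add, pow_mul, om_pow_three, one_pow, mul_one]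
    rw [← h5, h3, pow_one]
  exact hn (hprim.pow_inj (Nat.mod_lt _ (by norm_num)) (by norm_num) h4)

end Pool.Agent.W_MP_d17ed7_nt
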