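import Mathlib

/-!
Integrality of the coefficients of eta products.
-/

open Complex Filter Set Topology
open scoped Real

namespace Pool.Agent.W_MP_d17ed7_nt

/-- `G` is given on the unit disc by a power series with integer coefficients. -/
def IntRep (G : ℂ → ℂ) : Prop :=
  ∃ c : ℕ → ℤ, ∀ q : ℂ, ‖q‖ < 1 → HasSum (fun n : ℕ ↦ (c n : ℂ) * q ^ n) (G q)

lemma IntRep.mul {F G : ℂ → ℂ} (hF : IntRep F) (hG : IntRep G) : IntRep (fun q ↦ F q * G q) := by
  obtain ⟨a, ha⟩ := hF
  obtain ⟨b, hb⟩ := hG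
  refine ⟨fun n ↦ ∑ p ∈ Finset.HasAntidiagonal.antidiagonal n, a p.1 * b p.2, fun q hq ↦ ?_⟩
  have h1 := (ha q hq).summable.norm
  have h2 := (hb q hq).summable.norm
  have h3 := summable_norm_sum_mul_antidiagonal_of_summable_norm h1 h2
  have h4 := tsum_mul_tsum_eq_tsum_sum_antidiagonal_of_summable_norm h1 h2
  rw [(ha q hq).tsum_eq, (hb q hq).tsum_eq] at h4
  change HasSum _ (F q * G q)
  rw [h4]
  have h5 := h3.of_norm.hasSum
  convert! h5 using 1
  funext n
  push_cast
  rw [Finset.sum_mul]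
  refine Finset.sum_congr rfl fun p hp ↦ ?_
  rw [← Finset.HasAntidiagonal.mem_antidiagonal.mp hp, pow_add]
  ring

lemma IntRep.comp_pow {G : ℂ → ℂ} (hG : IntRep G) {d : ℕ} (hd : 0 < d) :
    IntRep (fun q ↦ G (q ^ d)) := by
  obtain ⟨c, hc⟩ := hG
  refine ⟨fun n ↦ if d ∣ n then c (n / d) else 0, fun q hq ↦ ?_⟩
  have hq' : ‖q ^ d‖ < 1 := by
    rw [norm_pow]
    exact pow_lt_one₀ (norm_nonneg _) hq hd.ne'
  have h1 := hc _ hq'
  have hinj : Function.Injective (fun n : ℕ ↦ d * n) := fun a b h ↦ Nat.eq_of_mul_eq_mul_left hd h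
  rw [← hinj.hasSum_iff]
  · convert! h1 using 1
    funext n
    simp [Nat.mul_div_cancel_left n hd, pow_mul]
  · intro x hx
    have : ¬ d ∣ x := by
      rintro ⟨y, rfl⟩
      exact hx ⟨y, rfl⟩
    simp [this]

lemma IntRep.pow {G : ℂ → ℂ} (hG : IntRep G) (k : ℕ) : IntRep (fun q ↦ G q ^ k) := by
  induction k with
  | zero =>
    refine ⟨fun n ↦ if n = 0 then 1 else 0, fun q _ ↦ ?_⟩
    have h1 := hasSum_ite_eq (0 : ℕ) (1 : ℂ)
    simp only [pow_zero]
    convert! h1 using 2 with n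
    by_cases h : n = 0
    · simp [h]
    · simp [h]
  | succ k ih =>
    simp_rw [pow_succ]
    exact ih.mul hG

/-- The Euler product. -/
noncomputable def euler (q : ℂ) : ℂ := ∏' n : ℕ, (1 - q ^ (n + 1))

lemma iteratedDeriv_poly (p : Polynomial ℂ) (k : ℕ) :
    iteratedDeriv k (fun x ↦ p.eval x) = fun x ↦ (Polynomial.derivative^[k] p).eval x := by
  induction k with
  | zero => simp
  | succ k ih =>
    rw [iteratedDeriv_succ, ih, Function.iterate_succ_apply']
    funext x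
    exact Polynomial.deriv _

lemma tendsto_iteratedDeriv {ι : Type*} {φ : Filter ι} [NeBot φ] {F : ι → ℂ → ℂ} {f : ℂ → ℂ}
    {U : Set ℂ} (hU : IsOpen U) (hF : TendstoLocallyUniformlyOn F f φ U)
    (hd : ∀ i, Differentiable ℂ (F i)) (k : ℕ) :
    TendstoLocallyUniformlyOn (fun i ↦ iteratedDeriv k (F i)) (iteratedDeriv k f) φ U := by
  induction k with
  | zero => simpa using hF
  | succ k ih =>
    have hdk : ∀ i, DifferentiableOn ℂ (iteratedDeriv k (F i)) U := by
      intro i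
      have : ContDiff ℂ ((k + 1 : ℕ) : ℕ∞) (F i) := (hd i).contDiff
      exact (this.differentiable_iteratedDeriv k (by exact_mod_cast Nat.lt_succ_self k)).differentiableOn
    have := ih.deriv (Eventually.of_forall hdk) hU
    simpa only [iteratedDeriv_succ, Function.comp_def] using this

lemma euler_tendsto : TendstoLocallyUniformlyOn
    (fun (s : Finset ℕ) (q : ℂ) ↦ ∏ i ∈ s, (1 - q ^ (i + 1))) euler atTop (Metric.ball 0 1) := by
  have h := ModularForm.multipliableLocallyUniformlyOn_one_sub_pow.hasProdLocallyUniformlyOn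
  rw [hasProdLocallyUniformlyOn_iff_tendstoLocallyUniformlyOn] at h
  exact h

lemma euler_coeff (k : ℕ) : ∃ c : ℤ, ((k.factorial : ℂ))⁻¹ * iteratedDeriv k euler 0 = c := by
  have h1 := tendsto_iteratedDeriv Metric.isOpen_ball euler_tendsto
    (fun s ↦ by fun_prop) k
  have h2 : Tendsto (fun s : Finset ℕ ↦
      iteratedDeriv k (fun q : ℂ ↦ ∏ i ∈ s, (1 - q ^ (i + 1))) 0) atTop
      (𝓝 (iteratedDeriv k euler 0)) := h1.tendsto_at (by simp)
  have h3 := h2.const_mul ((k.factorial : ℂ))⁻¹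
  have h4 : ∀ s : Finset ℕ, ((k.factorial : ℂ))⁻¹ *
      iteratedDeriv k (fun q : ℂ ↦ ∏ i ∈ s, (1 - q ^ (i + 1))) 0 ∈ Set.range ((↑) : ℤ → ℂ) := by
    intro s
    set p : Polynomial ℤ := ∏ i ∈ s, (1 - Polynomial.X ^ (i + 1)) with hp
    have e1 : (fun q : ℂ ↦ ∏ i ∈ s, (1 - q ^ (i + 1))) =
        fun q ↦ (p.map (Int.castRingHom ℂ)).eval q := by
      funext q
      rw [hp, Polynomial.map_prod, Polynomial.eval_prod]
      refine Finset.prod_congr rfl fun i _ ↦ ?_
      simp
    rw [e1, iteratedDeriv_poly]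
    beta_reduce
    rw [← Polynomial.coeff_zero_eq_eval_zero, Polynomial.coeff_iterate_derivative]
    refine ⟨p.coeff k, ?_⟩
    have hk : (k.factorial : ℂ) ≠ 0 := Nat.cast_ne_zero.mpr k.factorial_ne_zero
    rw [zero_add, Nat.descFactorial_self, Polynomial.coeff_map, nsmul_eq_mul, inv_mul_cancel_left₀ hk]
    simp
  have h5 := isClosed_range_intCast.mem_of_tendsto h3 (Eventually.of_forall h4)
  obtain ⟨c, hc⟩ := h5
  exact ⟨c, hc.symm⟩

lemma intRep_euler : IntRep euler := by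
  choose c hc using euler_coeff
  refine ⟨c, fun q hq ↦ ?_⟩
  have h := Complex.hasSum_taylorSeries_on_ball (f := euler) (c := 0) (r := 1)
    ModularForm.differentiableOn_tprod_one_sub_pow (z := q) (by simpa using hq)
  convert! h using 2 with n
  rw [← hc n, sub_zero, smul_eq_mul, smul_eq_mul]
  ring

lemma euler_zero : euler 0 = 1 := by
  unfold euler
  simp

end Pool.Agent.W_MP_d17ed7_nt
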