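import Mathlib
import Pool.Agent.W_MP_d17ed7_nt.Form27
import Pool.Agent.W_MP_d17ed7_nt.Integral

/-!
The coefficients of the form of level 27 are integers, and the first one is 1.
-/

open Complex Filter Set Topology
open scoped Real MatrixGroups ModularForm

namespace Pool.Agent.W_MP_d17ed7_nt

open UpperHalfPlane hiding I

lemma eta_eq_euler {d : ℕ} (z : ℂ) : ModularForm.eta (d * z) =
    cexp (2 * π * I * z * d / 24) * euler (Function.Periodic.qParam 1 z ^ d) := by
  unfold ModularForm.eta euler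
  congr 1
  · unfold Function.Periodic.qParam
    congr 1
    push_cast
    ring
  · have e : cexp (2 * π * I * (d * z)) = Function.Periodic.qParam 1 z ^ d := by
      rw [Function.Periodic.qParam, ← Complex.exp_nat_mul]
      congr 1
      push_cast
      ring
    congr 1
    funext n
    rw [ModularForm.eta_q_eq_pow, e]

lemma form27_eq (z : ℍ) : form27 z = Function.Periodic.qParam 1 z *
    (euler (Function.Periodic.qParam 1 z ^ 3) ^ 2 * euler (Function.Periodic.qParam 1 z ^ 9) ^ 2) := by
  rw [form27_apply, fun27]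
  have h3 := eta_eq_euler (d := 3) (z : ℂ)
  have h9 := eta_eq_euler (d := 9) (z : ℂ)
  push_cast at h3 h9
  rw [h3, h9]
  have h : cexp (2 * π * I * z * 3 / 24) ^ 2 * cexp (2 * π * I * z * 9 / 24) ^ 2 =
      Function.Periodic.qParam 1 z := by
    rw [← Complex.exp_nat_mul, ← Complex.exp_nat_mul, ← Complex.exp_add, Function.Periodic.qParam]
    congr 1
    push_cast
    ring
  rw [← h]
  ring

theorem form27_integral : (qExpansion 1 form27).coeff 1 = 1 ∧
    ∀ n : ℕ, ∃ a : ℤ, (qExpansion 1 form27).coeff n = a := by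
  have hΓ : (1 : ℝ) ∈ (CongruenceSubgroup.Gamma0 27 : Subgroup (GL (Fin 2) ℝ)).strictPeriods := by
    simp
  have hR : IntRep (fun q ↦ euler (q ^ 3) ^ 2 * euler (q ^ 9) ^ 2) :=
    ((intRep_euler.comp_pow (by norm_num)).pow 2).mul ((intRep_euler.comp_pow (by norm_num)).pow 2)
  obtain ⟨c, hc⟩ := hR
  have hc0 : (c 0 : ℂ) = 1 := by
    have h1 := hc 0 (by simp)
    have h2 : HasSum (fun n : ℕ ↦ (c n : ℂ) * 0 ^ n) (c 0 : ℂ) := by
      convert! hasSum_ite_eq (0 : ℕ) (c 0 : ℂ) using 2 with n
      by_cases h : n = 0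
      · simp [h]
      · simp [h]
    have h3 := h1.unique h2
    rw [← h3]
    simp [euler_zero]
  have hkey : ∀ τ : ℍ, HasSum (fun m : ℕ ↦
      (if m = 0 then (0 : ℂ) else (c (m - 1) : ℂ)) • Function.Periodic.qParam 1 τ ^ m)
      (form27 τ) := by
    intro τ
    have hq : ‖Function.Periodic.qParam 1 (τ : ℂ)‖ < 1 :=
      Function.Periodic.norm_qParam_lt_one one_pos τ.im_pos
    have h1 := (hc _ hq).mul_left (Function.Periodic.qParam 1 (τ : ℂ))
    rw [form27_eq]
    rw [← hasSum_nat_add_iff' 1]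
    simp only [Finset.range_one, Finset.sum_singleton, if_true, zero_smul, sub_zero,
      Nat.add_one_sub_one]
    convert! h1 using 2 with n
    simp only [Nat.add_eq_zero_iff, one_ne_zero, and_false, if_false, smul_eq_mul]
    rw [pow_succ]
    ring
  have h := fun n ↦ ModularFormClass.qExpansion_coeff_unique (f := form27) one_pos hΓ hkey n
  refine ⟨?_, fun n ↦ ?_⟩
  · rw [← h 1]
    simpa using hc0
  · rw [← h n]
    by_cases hn : n = 0
    · exact ⟨0, by simp [hn]⟩
    · exact ⟨c (n - 1), by simp [hn]⟩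

end Pool.Agent.W_MP_d17ed7_nt
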