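import Mathlib
import Pool.Agent.W_MP_d17ed7_nt.Form27

/-!
The form of level 27 spans the space of cusp forms of weight 2 and level 27.
-/

open Complex Filter Set Topology Asymptotics
open scoped Real MatrixGroups ModularForm Manifold

namespace Pool.Agent.W_MP_d17ed7_nt

open UpperHalfPlane hiding I

lemma disc_SL (δ : SL(2, ℤ)) :
    ModularForm.discriminant ∣[(12 : ℤ)] (δ : GL (Fin 2) ℝ) = ModularForm.discriminant :=
  CuspForm.discriminant.slash_action_eq' _ ⟨δ, rfl⟩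

/-- Lower bound for the slash of the discriminant by a matrix `δ (A, B; 0, D)`. -/
lemma disc_lower {M : GL (Fin 2) ℝ} {δ : SL(2, ℤ)} {U : GL (Fin 2) ℝ} {A B D : ℝ}
    (hA : 0 < A) (hD : 0 < D)
    (hU : (U : Matrix (Fin 2) (Fin 2) ℝ) = !![A, B; 0, D])
    (hM : M = (δ : GL (Fin 2) ℝ) * U) :
    (fun τ : ℍ ↦ Real.exp (-2 * π * (A / D) * τ.im)) =O[atImInfty]
      (ModularForm.discriminant ∣[(12 : ℤ)] M) := by
  have hdet : U.det.val = A * D := by
    rw [Matrix.GeneralLinearGroup.val_det_apply, hU, Matrix.det_fin_two_of]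
    ring
  have hdet0 : 0 < U.det.val := by rw [hdet]; positivity
  have hσ : σ U = ContinuousAlgEquiv.refl ℝ ℂ := by
    rw [σ, if_pos hdet0]
  have hden : ∀ τ : ℍ, denom U τ = D := by
    intro τ
    rw [denom, hU]
    simp
  have hU10 : (U : Matrix (Fin 2) (Fin 2) ℝ) 1 0 = 0 := by rw [hU]; simp
  have him : ∀ τ : ℍ, (U • τ).im = (A / D) * τ.im := by
    intro τ
    have h1 : ((U • τ : ℍ) : ℂ) = (A * τ + B) / D := by
      rw [coe_smul_of_det_pos hdet0, hden, num, hU]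
      simp
    have h2 : (U • τ).im = ((U • τ : ℍ) : ℂ).im := rfl
    rw [h2, h1]
    rw [div_ofReal_im, add_im, mul_im, ofReal_im, ofReal_im, ofReal_re]
    have h3 : (τ : ℂ).im = τ.im := rfl
    rw [h3]
    ring
  have h1 := ModularForm.exp_isBigO_discriminant.comp_tendsto (tendsto_smul_atImInfty hU10)
  rw [hM, SlashAction.slash_mul, disc_SL]
  have h2 : (ModularForm.discriminant ∣[(12 : ℤ)] U) =
      fun τ ↦ (((A * D : ℝ) : ℂ) ^ (11 : ℤ) * (D : ℂ) ^ (-12 : ℤ)) * ModularForm.discriminant (U • τ) := by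
    funext τ
    rw [ModularForm.slash_apply, hσ, hden, hdet, abs_of_pos (by positivity)]
    change ModularForm.discriminant (U • τ) * _ * _ = _
    norm_num
    ring
  rw [h2]
  have hne : (((A * D : ℝ) : ℂ) ^ (11 : ℤ) * (D : ℂ) ^ (-12 : ℤ)) ≠ 0 := by
    refine mul_ne_zero (zpow_ne_zero _ ?_) (zpow_ne_zero _ ?_)
    · exact ofReal_ne_zero.mpr (by positivity)
    · exact ofReal_ne_zero.mpr hD.ne'
  have h3 := (isBigO_const_mul_self ((((A * D : ℝ) : ℂ) ^ (11 : ℤ) * (D : ℂ) ^ (-12 : ℤ))⁻¹)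
    (fun τ : ℍ ↦ (((A * D : ℝ) : ℂ) ^ (11 : ℤ) * (D : ℂ) ^ (-12 : ℤ)) *
      ModularForm.discriminant (U • τ)) atImInfty)
  simp only [inv_mul_cancel_left₀ hne] at h3
  refine IsBigO.trans ?_ h3
  refine h1.congr_left fun τ ↦ ?_
  simp only [Function.comp_apply, him]
  congr 1
  ring

lemma scale_coe {n : ℚ} (hn : n ≠ 0) :
    (((scaleMat n hn).map (Rat.castHom ℝ) : GL (Fin 2) ℝ) : Matrix (Fin 2) (Fin 2) ℝ) =
      !![(n : ℝ), 0; 0, 1] := by
  ext i j
  fin_cases i <;> fin_cases j <;> simp [scaleMat, Matrix.GeneralLinearGroup.mkOfDetNeZero]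

lemma coe_SL (γ : SL(2, ℤ)) : ((γ : GL (Fin 2) ℝ) : Matrix (Fin 2) (Fin 2) ℝ) =
    !![(γ 0 0 : ℝ), (γ 0 1 : ℝ); (γ 1 0 : ℝ), (γ 1 1 : ℝ)] := by
  ext i j
  fin_cases i <;> fin_cases j <;> simp

lemma lower_case (γ : SL(2, ℤ)) {n : ℚ} (hn : 0 < n) {A B D p q r s : ℤ} (hA : 0 < A) (hD : 0 < D)
    (h1 : (p * A : ℚ) = n * γ 0 0) (h2 : (p * B + q * D : ℚ) = n * γ 0 1)
    (h3 : r * A = γ 1 0) (h4 : r * B + s * D = γ 1 1) (hdet : p * s - q * r = 1) :
    (fun τ : ℍ ↦ Real.exp (-2 * π * ((A : ℝ) / D) * τ.im)) =O[atImInfty]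
      (ModularForm.discriminant ∣[(12 : ℤ)]
        ((scaleMat n hn.ne').map (Rat.castHom ℝ) * (γ : GL (Fin 2) ℝ))) := by
  have hAr : (0 : ℝ) < A := by exact_mod_cast hA
  have hDr : (0 : ℝ) < D := by exact_mod_cast hD
  set δ : SL(2, ℤ) := ⟨!![p, q; r, s], by rw [Matrix.det_fin_two_of]; exact hdet⟩ with hδ
  set U : GL (Fin 2) ℝ := Matrix.GeneralLinearGroup.mkOfDetNeZero !![(A : ℝ), (B : ℝ); 0, (D : ℝ)]
    (by rw [Matrix.det_fin_two_of]; simp [hAr.ne', hDr.ne']) with hU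
  have hUc : (U : Matrix (Fin 2) (Fin 2) ℝ) = !![(A : ℝ), (B : ℝ); 0, (D : ℝ)] := rfl
  refine disc_lower (δ := δ) hAr hDr hUc ?_
  apply Units.ext
  rw [Matrix.GeneralLinearGroup.coe_mul, Matrix.GeneralLinearGroup.coe_mul, scale_coe, hUc, coe_SL,
    coe_SL, Matrix.mul_fin_two, Matrix.mul_fin_two]
  have g1 : ((p : ℝ) * A) = n * γ 0 0 := by exact_mod_cast h1
  have g2 : ((p : ℝ) * B + q * D) = n * γ 0 1 := by exact_mod_cast h2
  have g3 : ((r : ℝ) * A) = γ 1 0 := by exact_mod_cast h3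
  have g4 : ((r : ℝ) * B + s * D) = γ 1 1 := by exact_mod_cast h4
  have e00 : (δ 0 0 : ℤ) = p := rfl
  have e01 : (δ 0 1 : ℤ) = q := rfl
  have e10 : (δ 1 0 : ℤ) = r := rfl
  have e11 : (δ 1 1 : ℤ) = s := rfl
  rw [e00, e01, e10, e11]
  have e1 : ∀ a b c d a' b' c' d' : ℝ, a = a' → b = b' → c = c' → d = d' →
      (!![a, b; c, d] : Matrix (Fin 2) (Fin 2) ℝ) = !![a', b'; c', d'] := by
    rintro a b c d a' b' c' d' rfl rfl rfl rfl
    rfl
  apply e1
  · linear_combination -g1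
  · linear_combination -g2
  · linear_combination -g3
  · linear_combination -g4

lemma exists_solution {c d m : ℤ} (h : IsCoprime c m) : ∃ B : ℤ, m ∣ d - c * B := by
  obtain ⟨u, v, huv⟩ := h
  exact ⟨u * d, v * d, by linear_combination (-d) * huv⟩

/-- Lower bound for the form at every cusp. -/
lemma fun27_lower (γ : SL(2, ℤ)) : ∃ h : ℕ, 0 < h ∧ (27 : ℤ) ∣ h * γ 1 0 ^ 2 ∧
    (fun τ : ℍ ↦ Real.exp (-2 * π * τ.im / h) ^ 12) =O[atImInfty]
      (fun τ : ℍ ↦ ((fun27 ∣[(2 : ℤ)] γ) τ) ^ 12) := by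
  have hdet : γ 0 0 * γ 1 1 - γ 0 1 * γ 1 0 = 1 := by
    have := γ.det_coe
    rw [Matrix.det_fin_two] at this
    exact this
  -- reduction to the two discriminant factors
  have key : ∀ (h : ℕ) (e₃ e₉ : ℝ), 0 < h → (12 : ℝ) / h = e₃ + e₉ →
      (fun τ : ℍ ↦ Real.exp (-2 * π * e₃ * τ.im)) =O[atImInfty]
        (ModularForm.discriminant ∣[(12 : ℤ)]
          ((scaleMat 3 three_ne_zero).map (Rat.castHom ℝ) * (γ : GL (Fin 2) ℝ))) →
      (fun τ : ℍ ↦ Real.exp (-2 * π * e₉ * τ.im)) =O[atImInfty]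
        (ModularForm.discriminant ∣[(12 : ℤ)]
          ((scaleMat 9 (by norm_num)).map (Rat.castHom ℝ) * (γ : GL (Fin 2) ℝ))) →
      (fun τ : ℍ ↦ Real.exp (-2 * π * τ.im / h) ^ 12) =O[atImInfty]
        (fun τ : ℍ ↦ ((fun27 ∣[(2 : ℤ)] γ) τ) ^ 12) := by
    intro h e₃ e₉ hh he h3 h9
    have hprod := h3.mul h9
    have hne : ((3 : ℂ) ^ 11 * 9 ^ 11)⁻¹ ≠ 0 := by norm_num
    have h4 : (fun τ : ℍ ↦ (ModularForm.discriminant ∣[(12 : ℤ)]
          ((scaleMat 3 three_ne_zero).map (Rat.castHom ℝ) * (γ : GL (Fin 2) ℝ))) τ *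
          (ModularForm.discriminant ∣[(12 : ℤ)]
          ((scaleMat 9 (by norm_num)).map (Rat.castHom ℝ) * (γ : GL (Fin 2) ℝ))) τ)
        =O[atImInfty] (fun τ : ℍ ↦ ((fun27 ∣[(2 : ℤ)] γ) τ) ^ 12) := by
      have h5 := isBigO_const_mul_self ((3 : ℂ) ^ 11 * 9 ^ 11)
        (fun τ : ℍ ↦ ((fun27 ∣[(2 : ℤ)] γ) τ) ^ 12) atImInfty
      refine IsBigO.congr_left h5 fun τ ↦ ?_
      rw [fun27_pow]
      field_simp
    refine IsBigO.trans ?_ h4
    refine hprod.congr_left fun τ ↦ ?_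
    rw [← Real.exp_add, ← Real.exp_nat_mul]
    congr 1
    have hh' : (h : ℝ) ≠ 0 := by positivity
    push_cast
    have : -2 * π * e₃ * τ.im + -2 * π * e₉ * τ.im = -2 * π * (e₃ + e₉) * τ.im := by ring
    rw [this, ← he]
    field_simp
  by_cases hc3 : (3 : ℤ) ∣ γ 1 0
  · obtain ⟨c', hc'⟩ := hc3
    by_cases hc9 : (3 : ℤ) ∣ c'
    · obtain ⟨c'', hc''⟩ := hc9
      refine ⟨1, one_pos, ⟨3 * c'' ^ 2, by rw [hc', hc'']; push_cast; ring⟩, ?_⟩
      refine key 1 (((3 : ℤ) : ℝ) / ((1 : ℤ) : ℝ)) (((9 : ℤ) : ℝ) / ((1 : ℤ) : ℝ)) one_pos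
        (by norm_num) ?_ ?_
      · refine lower_case γ (n := 3) (by norm_num) (B := 0) (p := γ 0 0) (q := 3 * γ 0 1)
          (r := c') (s := γ 1 1) (by norm_num) (by norm_num) ?_ ?_ ?_ ?_ ?_
        · push_cast; ring
        · push_cast; ring
        · rw [hc']; ring
        · ring
        · rw [hc'] at hdet; linear_combination hdet
      · refine lower_case γ (n := 9) (by norm_num) (B := 0) (p := γ 0 0) (q := 9 * γ 0 1)
          (r := c'') (s := γ 1 1) (by norm_num) (by norm_num) ?_ ?_ ?_ ?_ ?_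
        · push_cast; ring
        · push_cast; ring
        · rw [hc', hc'']; ring
        · ring
        · rw [hc', hc''] at hdet; linear_combination hdet
    · refine ⟨3, by norm_num, ⟨c' ^ 2, by rw [hc']; push_cast; ring⟩, ?_⟩
      have hcop : IsCoprime c' 3 := by
        rw [isCoprime_comm]
        exact (Prime.coprime_iff_not_dvd Int.prime_three).mpr hc9
      obtain ⟨B, s, hB⟩ := exists_solution (d := γ 1 1) hcop
      refine key 3 (((3 : ℤ) : ℝ) / ((1 : ℤ) : ℝ)) (((3 : ℤ) : ℝ) / ((3 : ℤ) : ℝ)) (by norm_num)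
        (by norm_num) ?_ ?_
      · refine lower_case γ (n := 3) (by norm_num) (B := 0) (p := γ 0 0) (q := 3 * γ 0 1)
          (r := c') (s := γ 1 1) (by norm_num) (by norm_num) ?_ ?_ ?_ ?_ ?_
        · push_cast; ring
        · push_cast; ring
        · rw [hc']; ring
        · ring
        · rw [hc'] at hdet; linear_combination hdet
      · refine lower_case γ (n := 9) (by norm_num) (B := B) (p := 3 * γ 0 0)
          (q := 3 * γ 0 1 - γ 0 0 * B)
          (r := c') (s := s) (by norm_num) (by norm_num) ?_ ?_ ?_ ?_ ?_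
        · push_cast; ring
        · push_cast; ring
        · rw [hc']; ring
        · linear_combination -hB
        · rw [hc'] at hdet; linear_combination hdet - γ 0 0 * hB
  · refine ⟨27, by norm_num, ⟨γ 1 0 ^ 2, by push_cast; ring⟩, ?_⟩
    have hcop : IsCoprime (γ 1 0) 3 := by
      rw [isCoprime_comm]
      exact (Prime.coprime_iff_not_dvd Int.prime_three).mpr hc3
    have hcop9 : IsCoprime (γ 1 0) 9 := by
      have := hcop.pow_right (n := 2)
      norm_num at this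
      exact this
    obtain ⟨B, s, hB⟩ := exists_solution (d := γ 1 1) hcop
    obtain ⟨B', s', hB'⟩ := exists_solution (d := γ 1 1) hcop9
    refine key 27 (((1 : ℤ) : ℝ) / ((3 : ℤ) : ℝ)) (((1 : ℤ) : ℝ) / ((9 : ℤ) : ℝ)) (by norm_num)
      (by norm_num) ?_ ?_
    · refine lower_case γ (n := 3) (by norm_num) (B := B) (p := 3 * γ 0 0)
        (q := γ 0 1 - γ 0 0 * B)
        (r := γ 1 0) (s := s) (by norm_num) (by norm_num) ?_ ?_ ?_ ?_ ?_
      · push_cast; ring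
      · push_cast; ring
      · ring
      · linear_combination -hB
      · linear_combination hdet - γ 0 0 * hB
    · refine lower_case γ (n := 9) (by norm_num) (B := B') (p := 9 * γ 0 0)
        (q := γ 0 1 - γ 0 0 * B')
        (r := γ 1 0) (s := s') (by norm_num) (by norm_num) ?_ ?_ ?_ ?_ ?_
      · push_cast; ring
      · push_cast; ring
      · ring
      · linear_combination -hB'
      · linear_combination hdet - γ 0 0 * hB'

/-- Conjugates of translations. -/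
lemma conj_T_mem {γ : SL(2, ℤ)} {h : ℕ} (hh : (27 : ℤ) ∣ h * γ 1 0 ^ 2) :
    γ * ModularGroup.T ^ (h : ℤ) * γ⁻¹ ∈ CongruenceSubgroup.Gamma0 27 := by
  rw [CongruenceSubgroup.Gamma0_mem]
  have h1 : (γ * ModularGroup.T ^ (h : ℤ) * γ⁻¹ : SL(2, ℤ)) 1 0 = -(h * γ 1 0 ^ 2) := by
    have e : ((γ * ModularGroup.T ^ (h : ℤ) * γ⁻¹ : SL(2, ℤ)) : Matrix (Fin 2) (Fin 2) ℤ) =
        (γ : Matrix (Fin 2) (Fin 2) ℤ) * !![1, (h : ℤ); 0, 1] *
          !![γ 1 1, -γ 0 1; -γ 1 0, γ 0 0] := by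
      rw [Matrix.SpecialLinearGroup.coe_mul, Matrix.SpecialLinearGroup.coe_mul,
        ModularGroup.coe_T_zpow, Matrix.SpecialLinearGroup.SL2_inv_expl]
      rfl
    rw [e]
    simp [Matrix.mul_apply, Fin.sum_univ_two]
    ring
  change (((γ * ModularGroup.T ^ (h : ℤ) * γ⁻¹ : SL(2, ℤ)) 1 0 : ℤ) : ZMod 27) = 0
  rw [h1, ZMod.intCast_zmod_eq_zero_iff_dvd]
  exact (dvd_neg).mpr (by exact_mod_cast hh)

lemma slash_periodic (g : CuspForm (CongruenceSubgroup.Gamma0 27) 2) {γ : SL(2, ℤ)} {h : ℕ}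
    (hh : (27 : ℤ) ∣ h * γ 1 0 ^ 2) :
    Function.Periodic (((g : ℍ → ℂ) ∣[(2 : ℤ)] γ) ∘ ofComplex) (h : ℝ) := by
  have hinv : ((g : ℍ → ℂ) ∣[(2 : ℤ)] γ) ∣[(2 : ℤ)] (ModularGroup.T ^ (h : ℤ)) =
      ((g : ℍ → ℂ) ∣[(2 : ℤ)] γ) := by
    rw [← SlashAction.slash_mul]
    have e : γ * ModularGroup.T ^ (h : ℤ) = (γ * ModularGroup.T ^ (h : ℤ) * γ⁻¹) * γ := by group
    rw [e, SlashAction.slash_mul]
    congr 1
    exact g.slash_action_eq' _ ⟨_, conj_T_mem hh, rfl⟩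
  have hτ : ∀ τ : ℍ, ((g : ℍ → ℂ) ∣[(2 : ℤ)] γ) ((h : ℝ) +ᵥ τ) = ((g : ℍ → ℂ) ∣[(2 : ℤ)] γ) τ := by
    intro τ
    have h1 := (ModularForm.slash_action_eq'_iff 2 ((g : ℍ → ℂ) ∣[(2 : ℤ)] γ)
      (ModularGroup.T ^ (h : ℤ)) τ).mp (congrFun hinv τ)
    rw [modular_T_zpow_smul] at h1
    have h2 : (ModularGroup.T ^ (h : ℤ) : SL(2, ℤ)) 1 0 = 0 := by
      rw [ModularGroup.coe_T_zpow]; rfl
    have h3 : (ModularGroup.T ^ (h : ℤ) : SL(2, ℤ)) 1 1 = 1 := by
      rw [ModularGroup.coe_T_zpow]; rfl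
    rw [h2, h3] at h1
    simpa using h1
  intro z
  simp only [Function.comp_apply]
  by_cases hz : 0 < z.im
  · have hz' : 0 < (z + (h : ℝ)).im := by simpa using hz
    have e : ofComplex (z + (h : ℝ)) = (h : ℝ) +ᵥ ofComplex z := by
      ext
      rw [ofComplex_apply_of_im_pos hz', ofComplex_apply_of_im_pos hz, coe_vadd]
      change z + (h : ℝ) = (h : ℝ) + z
      ring
    have e' : ofComplex (z + ((h : ℕ) : ℂ)) = (h : ℝ) +ᵥ ofComplex z := by
      rw [← e]; norm_cast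
    simp only [ofReal_natCast]
    rw [e', hτ]
  · have hz' : ¬ 0 < (z + (h : ℝ)).im := by simpa using hz
    have hz'' : ¬ 0 < (z + ((h : ℕ) : ℂ)).im := by simpa using hz
    simp only [ofReal_natCast]
    rw [ofComplex_apply_eq_ite, ofComplex_apply_eq_ite, dif_neg hz, dif_neg hz'']

lemma quotient_bounded (g : CuspForm (CongruenceSubgroup.Gamma0 27) 2) (γ : SL(2, ℤ)) :
    ((g : ℍ → ℂ) ∣[(2 : ℤ)] γ) =O[atImInfty] (fun27 ∣[(2 : ℤ)] γ) := by
  obtain ⟨h, hh, hdvd, hlow⟩ := fun27_lower γ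
  have hz : IsZeroAtImInfty ((g : ℍ → ℂ) ∣[(2 : ℤ)] γ) := CuspFormClass.zero_at_infty_slash g γ
  have hb : IsBoundedAtImInfty ((g : ℍ → ℂ) ∣[(2 : ℤ)] γ) := hz.isBoundedAtImInfty
  have hhol : MDiff ((g : ℍ → ℂ) ∣[(2 : ℤ)] γ) :=
    (ModularFormClass.holo g).slash 2 (γ : GL (Fin 2) ℝ)
  have hup := hz.exp_decay_atImInfty (h := (h : ℝ)) (by exact_mod_cast hh)
    (slash_periodic g hdvd) hhol hb
  have h12 : (((g : ℍ → ℂ) ∣[(2 : ℤ)] γ) ^ 12) =O[atImInfty] ((fun27 ∣[(2 : ℤ)] γ) ^ 12) := by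
    have := (hup.pow 12).trans hlow
    exact this
  exact IsBigO.of_pow (by norm_num) h12

lemma fun27_ne_zero (z : ℍ) : fun27 z ≠ 0 := by
  have h3 : 0 < (3 * (z : ℂ)).im := by
    have := z.im_pos
    simpa using this
  have h9 : 0 < (9 * (z : ℂ)).im := by
    have := z.im_pos
    simpa using this
  unfold fun27
  exact mul_ne_zero (pow_ne_zero _ (ModularForm.eta_ne_zero h3))
    (pow_ne_zero _ (ModularForm.eta_ne_zero h9))

/-- The quotient of a cusp form of weight 2 and level 27 by the eta product. -/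
noncomputable def quotientForm (g : CuspForm (CongruenceSubgroup.Gamma0 27) 2) :
    ModularForm (CongruenceSubgroup.Gamma0 27 : Subgroup (GL (Fin 2) ℝ)) 0 where
  toFun := (g : ℍ → ℂ) / fun27
  slash_action_eq' A hA := by
    obtain ⟨γ, hγ, rfl⟩ := hA
    have h1 := ModularForm.div_slash_SL2 2 2 γ (g : ℍ → ℂ) fun27
    have h2 : (g : ℍ → ℂ) ∣[(2 : ℤ)] γ = g := g.slash_action_eq' _ ⟨γ, hγ, rfl⟩
    rw [h2, fun27_slash γ hγ] at h1
    exact h1
  holo' := by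
    have h1 := UpperHalfPlane.mdifferentiable_iff.mp (ModularFormClass.holo g)
    have h2 := UpperHalfPlane.mdifferentiable_iff.mp fun27_mdiff
    rw [UpperHalfPlane.mdifferentiable_iff]
    exact h1.div h2 fun z _ ↦ fun27_ne_zero _
  bdd_at_cusps' hc := by
    rw [Subgroup.IsArithmetic.isCusp_iff_isCusp_SL2Z] at hc
    rw [OnePoint.isBoundedAt_iff_forall_SL2Z hc]
    intro γ _
    have h1 := ModularForm.div_slash_SL2 2 2 γ (g : ℍ → ℂ) fun27
    have h2 : ((g : ℍ → ℂ) / fun27) ∣[(0 : ℤ)] γ =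
        ((g : ℍ → ℂ) ∣[(2 : ℤ)] γ) / (fun27 ∣[(2 : ℤ)] γ) := h1
    change IsBoundedAtImInfty (((g : ℍ → ℂ) / fun27) ∣[(0 : ℤ)] γ)
    rw [h2]
    rw [IsBoundedAtImInfty, BoundedAtFilter]
    obtain ⟨C, hC⟩ := (quotient_bounded g γ).bound
    refine IsBigO.of_bound C ?_
    filter_upwards [hC] with τ hτ
    have hne : (fun27 ∣[(2 : ℤ)] γ) τ ≠ 0 := by
      rw [ModularForm.SL_slash_apply]
      exact mul_ne_zero (fun27_ne_zero _) (zpow_ne_zero _ (denom_ne_zero _ _))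
    have hpos : 0 < ‖(fun27 ∣[(2 : ℤ)] γ) τ‖ := norm_pos_iff.mpr hne
    rw [Pi.div_apply, norm_div, div_le_iff₀ hpos]
    simpa using hτ

/-- The space of cusp forms of weight 2 and level 27 is spanned by the eta product. -/
theorem form27_spans (g : CuspForm (CongruenceSubgroup.Gamma0 27) 2) : ∃ c : ℂ, g = c • form27 := by
  obtain ⟨c, hc⟩ := ModularForm.eq_const_of_weight_zero (quotientForm g)
  refine ⟨c, ?_⟩
  ext z
  have h1 := congrFun hc z
  have h2 : quotientForm g z = g z / fun27 z := rfl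
  rw [h2, Function.const_apply, div_eq_iff (fun27_ne_zero z)] at h1
  rw [h1]
  rfl

end Pool.Agent.W_MP_d17ed7_nt
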