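import Mathlib
import Pool.Agent.W_MP_d17ed7_nt.Chars

/-!
Removing the prime 3 from the conductor of a quadratic character.
-/

namespace Pool.Agent.W_MP_d17ed7_nt

open DirichletCharacter

/-- The quadratic character modulo `3`. -/
noncomputable def chi3 : DirichletCharacter ℂ 3 :=
  (quadraticChar (ZMod 3)).ringHomComp (Int.castRingHom ℂ)

lemma chi3_one : chi3 1 = 1 := map_one _

lemma chi3_two : chi3 2 = -1 := by
  have h0 : ¬ IsSquare (2 : ZMod 3) := by decide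
  have h : quadraticChar (ZMod 3) 2 = -1 := quadraticChar_neg_one_iff_not_isSquare.mpr h0
  unfold chi3
  rw [MulChar.ringHomComp_apply]
  rw [h]
  simp

lemma chi3_inv : chi3⁻¹ = chi3 := by
  rw [inv_eq_iff_mul_eq_one]
  ext u
  rw [MulChar.mul_apply, MulChar.one_apply_coe]
  have : ∀ v : (ZMod 3)ˣ, (v : ZMod 3) = 1 ∨ (v : ZMod 3) = 2 := by decide
  rcases this u with h | h
  · rw [h, chi3_one, one_mul]
  · rw [h, chi3_two]; norm_num

lemma chi3_of_mod_one {n : ℤ} (hn : n % 3 = 1) : chi3 n = 1 := by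
  have h : ((n : ℤ) : ZMod 3) = ((1 : ℤ) : ZMod 3) := by
    rw [ZMod.intCast_eq_intCast_iff]
    change n % 3 = 1 % 3
    omega
  rw [h]
  simp

lemma chi3_of_mod_two {n : ℤ} (hn : n % 3 = 2) : chi3 n = -1 := by
  have h : ((n : ℤ) : ZMod 3) = ((2 : ℤ) : ZMod 3) := by
    rw [ZMod.intCast_eq_intCast_iff]
    change n % 3 = 2 % 3
    omega
  rw [h]
  have := chi3_two
  exact_mod_cast this

lemma sq_eq_one_of_inv {m : ℕ} {ψ : DirichletCharacter ℂ m} (hψ : ψ⁻¹ = ψ) (u : (ZMod m)ˣ) :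
    ψ u * ψ u = 1 := by
  have h : ψ * ψ = 1 := by
    nth_rewrite 1 [← hψ]
    exact inv_mul_cancel ψ
  have := congrArg (fun c : DirichletCharacter ℂ m ↦ c u) h
  simpa [MulChar.mul_apply] using this

lemma mem_ker_toUnitHom {m : ℕ} {ψ : DirichletCharacter ℂ m} {u : (ZMod m)ˣ} :
    u ∈ ψ.toUnitHom.ker ↔ ψ u = 1 := by
  rw [MonoidHom.mem_ker, ← Units.val_inj, MulChar.coe_toUnitHom, Units.val_one]

lemma mem_ker_unitsMap {m d : ℕ} [NeZero m] (hd : d ∣ m) {u : (ZMod m)ˣ} :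
    u ∈ (ZMod.unitsMap hd).ker ↔ (d : ℤ) ∣ ((u : ZMod m).val : ℤ) - 1 := by
  rw [MonoidHom.mem_ker, ← Units.val_inj, ZMod.unitsMap_def, Units.coe_map, Units.val_one]
  have h1 : (ZMod.castHom hd (ZMod d) : ZMod m →* ZMod d) (u : ZMod m) =
      ((((u : ZMod m).val : ℤ)) : ZMod d) := by
    conv_lhs => rw [← ZMod.natCast_zmod_val (u : ZMod m)]
    simp
  rw [h1, ← ZMod.intCast_zmod_eq_zero_iff_dvd, Int.cast_sub, Int.cast_one, sub_eq_zero]

lemma unit_eq_one_iff {m : ℕ} [NeZero m] {u : (ZMod m)ˣ} :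
    u = 1 ↔ (m : ℤ) ∣ ((u : ZMod m).val : ℤ) - 1 := by
  rw [← ZMod.intCast_zmod_eq_zero_iff_dvd, Int.cast_sub, Int.cast_one, Int.cast_natCast,
    ZMod.natCast_zmod_val, sub_eq_zero, ← Units.val_inj, Units.val_one]

/-- `9` does not divide the conductor of a quadratic character. -/
lemma not_nine_dvd {m : ℕ} [NeZero m] {ψ : DirichletCharacter ℂ m} (hψ : ψ.IsPrimitive)
    (hr : ψ⁻¹ = ψ) : ¬ 9 ∣ m := by
  rintro ⟨e, he⟩
  have hm0 : m ≠ 0 := NeZero.ne m
  have hdm : (3 * e) ∣ m := ⟨3, by rw [he]; ring⟩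
  have hf : ψ.FactorsThrough (3 * e) := by
    rw [factorsThrough_iff_ker_unitsMap hdm]
    intro u hu
    rw [mem_ker_unitsMap] at hu
    rw [mem_ker_toUnitHom]
    obtain ⟨t, ht⟩ := hu
    have h3 : u ^ 3 = 1 := by
      have h4 : ((u : ZMod m)) = ((1 + (3 * e : ℕ) * t : ℤ) : ZMod m) := by
        rw [← ht]
        push_cast
        rw [ZMod.natCast_zmod_val]
        ring
      rw [← Units.val_inj, Units.val_pow_eq_pow_val, h4, Units.val_one]
      have h5 : ((m : ℤ) : ZMod m) = 0 := by simp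
      have h6 : (1 + ((3 * e : ℕ) : ℤ) * t) ^ 3 = 1 + (m : ℤ) * (t + 3 * e * t ^ 2 + 3 * e ^ 2 * t ^ 3) := by
        rw [he]
        push_cast
        ring
      rw [← Int.cast_pow, h6]
      push_cast
      simp
    have h7 : ψ u * ψ u * ψ u = 1 := by
      have : ψ ((u ^ 3 : (ZMod m)ˣ) : ZMod m) = 1 := by rw [h3]; simp
      rw [Units.val_pow_eq_pow_val, map_pow] at this
      rw [← this]
      ring
    rw [sq_eq_one_of_inv hr, one_mul] at h7
    exact h7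
  have h1 : ψ.conductor ≤ 3 * e := Nat.sInf_le hf
  rw [(isPrimitive_def ψ).mp hψ] at h1
  omega

/-- A quadratic primitive character agrees on `n ≡ 1 mod 3` with one of conductor prime to 3. -/
lemma remove_three {m : ℕ} [NeZero m] {ψ : DirichletCharacter ℂ m} (hψ : ψ.IsPrimitive)
    (hr : ψ⁻¹ = ψ) : ∃ (m₁ : ℕ) (_ : NeZero m₁) (ψ₁ : DirichletCharacter ℂ m₁),
      ψ₁.IsPrimitive ∧ ψ₁⁻¹ = ψ₁ ∧ Nat.Coprime 3 m₁ ∧ ∀ n : ℤ, n % 3 = 1 → ψ₁ n = ψ n := by
  by_cases h3 : 3 ∣ m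
  swap
  · exact ⟨m, inferInstance, ψ, hψ, hr, (Nat.Prime.coprime_iff_not_dvd Nat.prime_three).mpr h3,
      fun n _ ↦ rfl⟩
  obtain ⟨m₂, hm₂⟩ := h3
  have h9 := not_nine_dvd hψ hr
  have hcop : Nat.Coprime 3 m₂ := by
    rw [Nat.Prime.coprime_iff_not_dvd Nat.prime_three]
    rintro ⟨e, he⟩
    exact h9 ⟨e, by rw [hm₂, he]; ring⟩
  have hm₂m : m₂ ∣ m := ⟨3, by rw [hm₂]; ring⟩
  have hm0 : m ≠ 0 := NeZero.ne m
  have hm₂0 : m₂ ≠ 0 := by rintro rfl; exact hm0 (by rw [hm₂])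
  have hmi : (m : ℤ) = 3 * m₂ := by exact_mod_cast hm₂
  have hcopi : IsCoprime (3 : ℤ) (m₂ : ℤ) := by
    exact_mod_cast Nat.isCoprime_iff_coprime.mpr hcop
  -- an element of the kernel on which `ψ` is `-1`
  have hnf : ¬ ψ.FactorsThrough m₂ := by
    intro hf
    have h1 : ψ.conductor ≤ m₂ := Nat.sInf_le hf
    rw [(isPrimitive_def ψ).mp hψ] at h1
    omega
  rw [factorsThrough_iff_ker_unitsMap hm₂m, SetLike.not_le_iff_exists] at hnf
  obtain ⟨u₀, hu₀, hu₀'⟩ := hnf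
  rw [mem_ker_unitsMap] at hu₀
  rw [mem_ker_toUnitHom] at hu₀'
  have hψu₀ : ψ u₀ = -1 := by
    rcases mul_self_eq_one_iff.mp (sq_eq_one_of_inv hr u₀) with h | h
    · exact absurd h hu₀'
    · exact h
  have hcopu : Nat.Coprime (u₀ : ZMod m).val 3 :=
    Nat.Coprime.coprime_dvd_right ⟨m₂, hm₂⟩ (ZMod.val_coe_unit_coprime u₀)
  have hmod₀ : ((u₀ : ZMod m).val : ℤ) % 3 = 2 := by
    have h1 : ¬ 3 ∣ (u₀ : ZMod m).val := by
      intro h
      have := Nat.Coprime.eq_one_of_dvd (Nat.coprime_comm.mp hcopu) h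
      omega
    have h2 : ((u₀ : ZMod m).val : ℤ) % 3 ≠ 1 := by
      intro h
      apply hu₀'
      have h3 : (3 : ℤ) ∣ ((u₀ : ZMod m).val : ℤ) - 1 := by omega
      have h4 := hcopi.mul_dvd h3 hu₀
      rw [← hmi] at h4
      rw [unit_eq_one_iff.mpr h4]
      simp
    omega
  have hl : NeZero (Nat.lcm 3 m) := ⟨Nat.lcm_ne_zero (by norm_num) hm0⟩
  have hm₂l : m₂ ∣ Nat.lcm 3 m := hm₂m.trans (Nat.dvd_lcm_right 3 m)
  have hfac : (chi3.mul ψ).FactorsThrough m₂ := by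
    rw [factorsThrough_iff_ker_unitsMap hm₂l]
    intro u hu
    rw [mem_ker_unitsMap] at hu
    rw [mem_ker_toUnitHom]
    set n : ℤ := ((u : ZMod (Nat.lcm 3 m)).val : ℤ) with hn
    have hcopn : IsCoprime n ((Nat.lcm 3 m : ℕ) : ℤ) :=
      Nat.isCoprime_iff_coprime.mpr (ZMod.val_coe_unit_coprime u)
    have hcopn3 : IsCoprime n (3 : ℤ) :=
      hcopn.of_isCoprime_of_dvd_right (by exact_mod_cast Nat.dvd_lcm_left 3 m)
    have hun : (u : ZMod (Nat.lcm 3 m)) = (n : ZMod (Nat.lcm 3 m)) := by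
      rw [hn]
      push_cast
      rw [ZMod.natCast_zmod_val]
    have hval : (chi3.mul ψ) (u : ZMod (Nat.lcm 3 m)) = chi3 n * ψ n := by
      rw [hun, DirichletCharacter.mul, MulChar.mul_apply, changeLevel_eq_cast_of_dvd' chi3 _ hcopn,
        changeLevel_eq_cast_of_dvd' ψ _ hcopn]
    rw [hval]
    have hmod : n % 3 = 1 ∨ n % 3 = 2 := by
      have h1 : ¬ (3 : ℤ) ∣ n := by
        intro h
        have := hcopn3.isUnit_of_dvd' h dvd_rfl
        rw [Int.isUnit_iff] at this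
        omega
      omega
    rcases hmod with h | h
    · have h1 : (3 : ℤ) ∣ n - 1 := by omega
      have h2 := hcopi.mul_dvd h1 hu
      rw [← hmi, ← ZMod.intCast_zmod_eq_zero_iff_dvd, Int.cast_sub, sub_eq_zero] at h2
      rw [chi3_of_mod_one h, h2]
      simp
    · have h1 : (3 : ℤ) ∣ n - ((u₀ : ZMod m).val : ℤ) := by omega
      have h1' : (m₂ : ℤ) ∣ n - ((u₀ : ZMod m).val : ℤ) := by
        have := dvd_sub hu hu₀
        have e : n - 1 - (((u₀ : ZMod m).val : ℤ) - 1) = n - ((u₀ : ZMod m).val : ℤ) := by ring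
        rwa [e] at this
      have h2 := hcopi.mul_dvd h1 h1'
      rw [← hmi, ← ZMod.intCast_zmod_eq_zero_iff_dvd, Int.cast_sub, sub_eq_zero] at h2
      rw [chi3_of_mod_two h, h2, Int.cast_natCast, ZMod.natCast_zmod_val, hψu₀]
      norm_num
  have hcond : (chi3.mul ψ).conductor ∣ m₂ := conductor_dvd_of_mem_conductorSet _ hfac
  refine ⟨(chi3.mul ψ).conductor, inferInstance, chi3.primitive_mul ψ,
    primitive_mul_isPrimitive chi3 ψ, primitive_mul_inv chi3 ψ chi3_inv hr,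
    hcop.coprime_dvd_right hcond, ?_⟩
  intro n hn
  by_cases hc : IsCoprime n (m : ℤ)
  · have h3 : IsCoprime n ((3 : ℕ) : ℤ) := hc.of_isCoprime_of_dvd_right ⟨m₂, by rw [hmi]; rfl⟩
    rw [primitive_mul_apply chi3 ψ h3 hc, chi3_of_mod_one hn, one_mul]
  · rw [(apply_eq_zero_iff ψ n).mpr hc]
    rw [apply_eq_zero_iff]
    intro hc'
    apply hc
    have h1 : m ∣ Nat.lcm 3 (chi3.mul ψ).conductor := modulus_dvd_lcm chi3 ψ chi3_inv hψ
    have h2 : IsCoprime n ((3 : ℕ) : ℤ) := by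
      have : IsCoprime n (3 : ℤ) := by
        have h3 : n = 1 + 3 * (n / 3) := by omega
        rw [h3]
        exact (isCoprime_one_left).add_mul_left_left _
      exact_mod_cast this
    have h4 : IsCoprime n (((3 * (chi3.mul ψ).conductor : ℕ)) : ℤ) := by
      push_cast
      exact_mod_cast h2.mul_right hc'
    exact h4.of_isCoprime_of_dvd_right (by exact_mod_cast h1.trans (Nat.lcm_dvd_mul _ _))

end Pool.Agent.W_MP_d17ed7_nt
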