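import Mathlib
import Pool.Agent.W_MP_d17ed7_nt.Form27
import Pool.Agent.W_MP_d17ed7_nt.Chars3

/-!
Simultaneous vanishing for quadratic twists of the form of level 27.
-/

open Complex Filter Set
open scoped Real MatrixGroups ModularForm

namespace Pool.Agent.W_MP_d17ed7_nt

open UpperHalfPlane hiding I

lemma isTwistedL_transfer {m m₁ : ℕ} {ψ : DirichletCharacter ℂ m} {ψ₁ : DirichletCharacter ℂ m₁}
    (h : ∀ n : ℤ, n % 3 = 1 → ψ₁ n = ψ n) (L : ℂ → ℂ) :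
    IsTwistedL 2 form27 ψ L ↔ IsTwistedL 2 form27 ψ₁ L := by
  unfold IsTwistedL
  have : ∀ s : ℂ, (fun n : ℕ ↦ (qExpansion 1 form27).coeff n * ψ n / (n : ℂ) ^ s) =
      (fun n : ℕ ↦ (qExpansion 1 form27).coeff n * ψ₁ n / (n : ℂ) ^ s) := by
    intro s
    funext n
    by_cases hn : n % 3 = 1
    · have := h n (by omega)
      push_cast at this
      rw [this]
    · rw [form27_coeff hn]
      simp
  simp_rw [this]

lemma level27_twist {m : ℕ} [NeZero m] {ψ : DirichletCharacter ℂ m} (hψp : ψ.IsPrimitive)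
    (hψ : ψ⁻¹ = ψ) (hm : Nat.Coprime 3 m) :
    ∃ L : ℂ → ℂ, IsTwistedL 2 form27 ψ L ∧ (ψ (-27) ≠ 1 → L 1 = 0) := by
  have hf : ∀ γ : SL(2, ℤ), γ ∈ CongruenceSubgroup.Gamma0 27 →
      (form27 : ℍ → ℂ) ∣[(2 : ℤ)] (γ : GL (Fin 2) ℝ) = form27 := fun γ hγ ↦ fun27_slash γ hγ
  have hcop : Nat.Coprime 27 m := by
    have := Nat.Coprime.pow_left 3 hm
    simpa using this
  obtain ⟨L, hL, hv⟩ := twist_eigen (N := 27) (N' := 1) (Q := 27) (k := 2) (by norm_num)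
    form27_data hf (by norm_num) (by norm_num) (W := fricke27) (w := -1) (by norm_num)
    (x := 0) (y := -1) (z := 1) (t := 0) (by rw [fricke27_coe]; norm_num)
    (by rw [fricke27_det]; norm_num) form27_fricke (m := m) (one_dvd m) hcop hψp hψ
  refine ⟨L, hL, fun hne ↦ ?_⟩
  have h1 : ((((2 : ℤ) : ℂ)) / 2) = 1 := by norm_num
  rw [h1] at hv
  apply hv
  have h2 : ((Real.sqrt ((27 : ℕ) : ℝ) : ℝ) : ℂ) ^ (-(2 : ℤ)) = (27 : ℂ)⁻¹ := by
    rw [zpow_neg]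
    congr 1
    rw [zpow_ofNat, ← ofReal_pow, Real.sq_sqrt (by norm_num)]
    norm_num
  have h3 : (I : ℂ) ^ (2 : ℤ) = -1 := by
    rw [zpow_ofNat]; exact I_sq
  rw [h2, h3]
  have h4 : (-(((27 : ℕ) : ZMod m))) = (-27 : ZMod m) := by norm_num
  rw [h4]
  intro h5
  apply hne
  rw [← h5]
  push_cast
  ring

theorem level27_product {q : ℕ} [NeZero q] {χ : DirichletCharacter ℂ q}
    (hχ : orderOf χ = 2) (hq3 : Nat.Coprime 3 q) (hχ3 : χ (-3) = -1)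
    {m : ℕ} [NeZero m] {ψ : DirichletCharacter ℂ m} (hψp : ψ.IsPrimitive) (hψ : orderOf ψ = 2) :
    (∃! L, IsTwistedL 2 form27 ψ L) ∧ (∃! L, IsTwistedL 2 form27 (χ.primitive_mul ψ) L) ∧
    ∀ L₁ L₂, IsTwistedL 2 form27 ψ L₁ → IsTwistedL 2 form27 (χ.primitive_mul ψ) L₂ →
      L₁ 1 * L₂ 1 = 0 := by
  have hχi := inv_eq_of_orderOf_two hχ
  have hψi := inv_eq_of_orderOf_two hψ
  obtain ⟨m₁, hm₁, ψ₁, hψ₁p, hψ₁i, hcm, hψ₁⟩ := remove_three hψp hψi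
  obtain ⟨r₁, hr₁, θ₁, hθ₁p, hθ₁i, hcr, hθ₁⟩ := remove_three
    (DirichletCharacter.primitive_mul_isPrimitive χ ψ) (primitive_mul_inv χ ψ hχi hψi)
  obtain ⟨L₁, hL₁, hv₁⟩ := level27_twist hψ₁p hψ₁i hcm
  obtain ⟨L₂, hL₂, hv₂⟩ := level27_twist hθ₁p hθ₁i hcr
  rw [← isTwistedL_transfer hψ₁] at hL₁
  rw [← isTwistedL_transfer hθ₁] at hL₂
  refine ⟨⟨L₁, hL₁, fun L hL ↦ hL.unique hL₁⟩, ⟨L₂, hL₂, fun L hL ↦ hL.unique hL₂⟩, ?_⟩
  intro L₁' L₂' h₁ h₂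
  rw [h₁.unique hL₁, h₂.unique hL₂]
  by_contra hne
  have e₁ := not_imp_comm.mp hv₁ (left_ne_zero_of_mul hne)
  have e₂ := not_imp_comm.mp hv₂ (right_ne_zero_of_mul hne)
  -- an integer `n` with `n ≡ 1 mod 3` and `n ≡ -27` modulo everything else
  have hcopM : IsCoprime (3 : ℤ) ((q * m₁ * r₁ : ℕ) : ℤ) := by
    have : Nat.Coprime 3 (q * m₁ * r₁) := (hq3.mul_right hcm).mul_right hcr
    exact_mod_cast Nat.isCoprime_iff_coprime.mpr this
  obtain ⟨a, b, hab⟩ := hcopM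
  set M : ℤ := ((q * m₁ * r₁ : ℕ) : ℤ) with hM
  set n : ℤ := b * M - 81 * a with hn
  have hn3 : n % 3 = 1 := by omega
  have hnM : M ∣ n - (-27) := ⟨28 * b, by rw [hn]; linear_combination (-27) * hab⟩
  have hcast : ∀ d : ℕ, (d : ℤ) ∣ M → ((n : ℤ) : ZMod d) = ((-27 : ℤ) : ZMod d) := by
    intro d hd
    have := (ZMod.intCast_zmod_eq_zero_iff_dvd (n - (-27)) d).mpr (hd.trans hnM)
    rw [Int.cast_sub, sub_eq_zero] at this
    exact this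
  have hdq : (q : ℤ) ∣ M := by
    rw [hM]; exact_mod_cast Dvd.intro (m₁ * r₁) (by ring)
  have hdm : (m₁ : ℤ) ∣ M := by
    rw [hM]; exact_mod_cast Dvd.intro (q * r₁) (by ring)
  have hdr : (r₁ : ℤ) ∣ M := by
    rw [hM]; exact_mod_cast Dvd.intro (q * m₁) (by ring)
  have f₁ : ψ n = 1 := by
    rw [← hψ₁ n hn3, hcast m₁ hdm]
    push_cast
    exact e₁
  have f₂ : (χ.primitive_mul ψ) n = 1 := by
    rw [← hθ₁ n hn3, hcast r₁ hdr]
    push_cast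
    exact e₂
  have f₃ : χ n = -1 := by
    rw [hcast q hdq]
    have : ((-27 : ℤ) : ZMod q) = (-3) ^ 3 := by push_cast; norm_num
    rw [this, map_pow, hχ3]
    norm_num
  have hcn : IsCoprime n (m : ℤ) := by
    rw [← DirichletCharacter.apply_ne_zero_iff ψ n, f₁]
    exact one_ne_zero
  have hcn' : IsCoprime n (q : ℤ) := by
    rw [← DirichletCharacter.apply_ne_zero_iff χ n, f₃]
    norm_num
  rw [primitive_mul_apply χ ψ hcn' hcn, f₁, f₃] at f₂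
  norm_num at f₂

end Pool.Agent.W_MP_d17ed7_nt
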